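import Pool.Agent.W220.LinComp

/-!
# Lineons: numerical codes

Subsets of `F_2^N`, tuples of vectors, permutations and the densities in terms of the binary
digits of natural numbers.
-/

set_option autoImplicit false

namespace Pool.Agent.W220.Lin

open Finset

/-- the `i`-th binary digit -/
def bit (a i : ℕ) : ℕ := a / 2 ^ i % 2

theorem bit_lt (a i : ℕ) : bit a i < 2 := Nat.mod_lt _ (by norm_num)

theorem testBit_iff (a i : ℕ) : a.testBit i = true ↔ bit a i = 1 := by
  rw [Nat.testBit_eq_decide_div_mod_eq, decide_eq_true_iff, bit]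

/-- numbers with prescribed digits -/
def digs (n : ℕ) (f : ℕ → ℕ) : ℕ := ∑ i ∈ range n, 2 ^ i * (f i % 2)

theorem digs_lt (n : ℕ) (f : ℕ → ℕ) : digs n f < 2 ^ n := by
  unfold digs
  induction n with
  | zero => simp
  | succ n ih =>
    rw [Finset.sum_range_succ, pow_succ]
    have : f n % 2 ≤ 1 := Nat.lt_succ_iff.mp (Nat.mod_lt _ (by norm_num))
    have h2 : 2 ^ n * (f n % 2) ≤ 2 ^ n * 1 := Nat.mul_le_mul_left _ this
    omega

theorem testBit_digs (n : ℕ) (f : ℕ → ℕ) (j : ℕ) :
    (digs n f).testBit j = (decide (j < n) && decide (f j % 2 = 1)) := by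
  induction n with
  | zero => simp [digs]
  | succ n ih =>
    have h : digs (n + 1) f = 2 ^ n * (f n % 2) + digs n f := by
      unfold digs
      rw [Finset.sum_range_succ, add_comm]
    rw [h, Nat.testBit_two_pow_mul_add _ (digs_lt n f), ih]
    rcases lt_trichotomy j n with hj | hj | hj
    · simp [hj, Nat.lt_succ_of_lt hj]
    · subst hj
      simp only [lt_self_iff_false, ↓reduceIte, Nat.sub_self, Nat.lt_succ_self, decide_true,
        Bool.true_and]
      rcases Nat.mod_two_eq_zero_or_one (f j) with h0 | h0 <;> simp [h0]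
    · have h1 : ¬ j < n := by omega
      have h2 : ¬ j < n + 1 := by omega
      simp only [h1, ↓reduceIte, h2, decide_false, Bool.false_and]
      have h3 : f n % 2 < 2 ^ (j - n) := by
        have : f n % 2 < 2 := Nat.mod_lt _ (by norm_num)
        have h4 : 2 ^ 1 ≤ 2 ^ (j - n) := Nat.pow_le_pow_right (by norm_num) (by omega)
        omega
      exact Nat.testBit_lt_two_pow h3

theorem bit_digs (n : ℕ) (f : ℕ → ℕ) {j : ℕ} (hj : j < n) : bit (digs n f) j = f j % 2 := by
  have h := testBit_digs n f j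
  have h1 := testBit_iff (digs n f) j
  rw [h] at h1
  simp only [hj, decide_true, Bool.true_and, decide_eq_true_eq] at h1
  rcases Nat.mod_two_eq_zero_or_one (f j) with h0 | h0
  · rw [h0] at h1 ⊢
    have h2 := bit_lt (digs n f) j
    have h3 : ¬ bit (digs n f) j = 1 := fun h => absurd (h1.mpr h) (by norm_num)
    omega
  · rw [h0] at h1 ⊢
    exact h1.mp rfl

/-- two numbers smaller than `2 ^ n` with the same digits are equal -/
theorem eq_of_bit {n a b : ℕ} (ha : a < 2 ^ n) (hb : b < 2 ^ n)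
    (h : ∀ i < n, bit a i = bit b i) : a = b := by
  refine Nat.eq_of_testBit_eq fun i => ?_
  by_cases hi : i < n
  · have h1 := testBit_iff a i
    have h2 := testBit_iff b i
    rw [h i hi] at h1
    exact Bool.eq_iff_iff.mpr (h1.trans h2.symm)
  · have h3 : 2 ^ n ≤ 2 ^ i := Nat.pow_le_pow_right (by norm_num) (by omega)
    rw [Nat.testBit_lt_two_pow (by omega), Nat.testBit_lt_two_pow (by omega)]

/-! ### Vectors and sets of vectors -/

/-- the number of a vector -/
def encV {N : ℕ} (s : Vec N) : ℕ := digs N (fun j => if h : j < N then (s ⟨j, h⟩).val else 0)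

theorem bit_encV {N : ℕ} (s : Vec N) (j : Fin N) : bit (encV s) j = (s j).val := by
  unfold encV
  rw [bit_digs _ _ j.2]
  simp only [j.2, ↓reduceDIte, Fin.eta]
  exact Nat.mod_eq_of_lt (ZMod.val_lt _)

theorem encV_lt {N : ℕ} (s : Vec N) : encV s < 2 ^ N := digs_lt _ _

theorem encV_inj {N : ℕ} : Function.Injective (encV (N := N)) := by
  intro s s' h
  funext j
  refine ZMod.val_injective 2 ?_
  rw [← bit_encV, ← bit_encV, h]

/-- the subset of `F_2^N` with number `b` -/
def setOf' (N b : ℕ) : Set (Vec N) := {s | b.testBit (encV s) = true}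

theorem exists_setOf' (N : ℕ) (B : Set (Vec N)) : ∃ b < 2 ^ (2 ^ N), setOf' N b = B := by
  classical
  refine ⟨digs (2 ^ N) (fun i => if ∃ s ∈ B, encV s = i then 1 else 0), digs_lt _ _, ?_⟩
  ext s
  unfold setOf'
  rw [Set.mem_ofPred_eq, testBit_iff, bit_digs _ _ (encV_lt s)]
  constructor
  · intro h
    by_contra hs
    have : ¬ ∃ s' ∈ B, encV s' = encV s := by
      rintro ⟨s', hs', he⟩
      exact hs (encV_inj he ▸ hs')
    rw [if_neg this] at h
    norm_num at h
  · intro hs
    rw [if_pos ⟨s, hs, rfl⟩]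

/-- the tuple of vectors with number `t` -/
def tupV (N n t : ℕ) : Fin n → Vec N := fun i j => ((bit t (N * i + j) : ℕ) : ZMod 2)

theorem tupV_val (N n t : ℕ) (i : Fin n) (j : Fin N) :
    (tupV N n t i j).val = bit t (N * i + j) := by
  unfold tupV
  rw [ZMod.val_natCast, Nat.mod_eq_of_lt (bit_lt _ _)]

theorem idx_lt {N n : ℕ} (i : Fin n) (j : Fin N) : N * (i : ℕ) + j < N * n := by
  have h1 : (i : ℕ) + 1 ≤ n := i.2
  calc N * (i : ℕ) + j < N * i + N := by have := j.2; omega
    _ = N * (i + 1) := by ring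
    _ ≤ N * n := Nat.mul_le_mul_left _ h1

theorem tupV_bij (N n : ℕ) : Function.Bijective (fun t : Fin (2 ^ (N * n)) => tupV N n t) := by
  rw [Fintype.bijective_iff_injective_and_card]
  constructor
  · intro t t' h
    refine Fin.ext (eq_of_bit t.2 t'.2 fun i hi => ?_)
    have hN : 0 < N := Nat.pos_of_ne_zero (by rintro rfl; simp at hi)
    have hin : i / N < n := by
      rw [Nat.div_lt_iff_lt_mul hN, mul_comm]
      exact hi
    have h1 := congrFun (congrFun h ⟨i / N, hin⟩) ⟨i % N, Nat.mod_lt _ hN⟩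
    have h2 := congrArg ZMod.val h1
    simp only at h2
    rw [tupV_val, tupV_val] at h2
    simp only [Nat.div_add_mod] at h2
    exact h2
  · simp only [Fintype.card_fin, Fintype.card_fun, ZMod.card]
    rw [← pow_mul]

open Classical in
theorem card_tupV (N n : ℕ) (P : (Fin n → Vec N) → Prop) :
    (univ.filter (fun w : Fin n → Vec N => P w)).card =
      ∑ t ∈ range (2 ^ (N * n)), if P (tupV N n t) then 1 else 0 := by
  rw [Finset.sum_range (fun t => if P (tupV N n t) then 1 else 0), Finset.card_filter]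
  exact (Function.Bijective.sum_comp (tupV_bij N n) (fun w => if P w then 1 else 0)).symm

/-! ### Subsets of `Fin n` -/

/-- the subset of `Fin n` with number `J` -/
def subJ (n J : ℕ) : Finset (Fin n) := univ.filter (fun i => bit J i = 1)

theorem sum_pow_eq_digs (n : ℕ) (S : Finset (Fin n)) :
    ∑ i ∈ S, 2 ^ (i : ℕ) = digs n (fun j => if ∃ i ∈ S, (i : ℕ) = j then 1 else 0) := by
  classical
  unfold digs
  rw [Finset.sum_range, ← Finset.sum_subset (Finset.subset_univ S)]
  · refine Finset.sum_congr rfl fun i hi => ?_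
    have h1 : ∃ i' ∈ S, (i' : ℕ) = (i : ℕ) := ⟨i, hi, rfl⟩
    simp [h1]
  · intro i _ hi
    have h1 : ¬ ∃ i' ∈ S, (i' : ℕ) = (i : ℕ) := by
      rintro ⟨i', hi', h⟩
      exact hi (Fin.ext h ▸ hi')
    simp [h1]

theorem subJ_sum (n : ℕ) (S : Finset (Fin n)) : subJ n (∑ i ∈ S, 2 ^ (i : ℕ)) = S := by
  classical
  ext i
  unfold subJ
  rw [Finset.mem_filter, sum_pow_eq_digs, bit_digs _ _ i.2]
  simp only [Finset.mem_univ, true_and]
  constructor
  · intro h
    by_contra hs
    rw [if_neg] at h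
    · norm_num at h
    · rintro ⟨i', hi', he⟩
      exact hs (Fin.ext he ▸ hi')
  · intro hs
    rw [if_pos ⟨i, hs, rfl⟩]

theorem sum_lt (n : ℕ) (S : Finset (Fin n)) : ∑ i ∈ S, 2 ^ (i : ℕ) < 2 ^ n := by
  rw [sum_pow_eq_digs]; exact digs_lt _ _

theorem sum_subJ (n J : ℕ) (hJ : J < 2 ^ n) : ∑ i ∈ subJ n J, 2 ^ (i : ℕ) = J := by
  refine eq_of_bit (sum_lt n _) hJ fun i hi => ?_
  have h := subJ_sum n (subJ n J)
  have h1 := Finset.ext_iff.mp h ⟨i, hi⟩
  unfold subJ at h1
  simp only [Finset.mem_filter, Finset.mem_univ, true_and] at h1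
  have h2 := bit_lt (∑ i ∈ subJ n J, 2 ^ (i : ℕ)) i
  have h3 := bit_lt J i
  unfold subJ at h2 ⊢
  rcases Nat.lt_or_ge (bit J i) 1 with h4 | h4
  · have : ¬ bit J i = 1 := by omega
    have := mt h1.mp this
    omega
  · have : bit J i = 1 := by omega
    rw [this]; exact h1.mpr this

theorem subJ_nonempty (n J : ℕ) (hJ : J < 2 ^ n) : (subJ n J).Nonempty ↔ J ≠ 0 := by
  constructor
  · rintro ⟨i, hi⟩ h0
    subst h0
    unfold subJ bit at hi
    simp at hi
  · intro h
    by_contra hne
    rw [Finset.not_nonempty_iff_eq_empty] at hne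
    have := sum_subJ n J hJ
    rw [hne] at this
    simp at this
    exact h this.symm

theorem forall_subset_iff (n : ℕ) (P : Finset (Fin n) → Prop) :
    (∀ S : Finset (Fin n), S.Nonempty → P S) ↔ ∀ J < 2 ^ n, J ≠ 0 → P (subJ n J) := by
  constructor
  · intro h J hJ h0
    exact h _ ((subJ_nonempty n J hJ).mpr h0)
  · intro h S hS
    have h1 := h (∑ i ∈ S, 2 ^ (i : ℕ)) (sum_lt n S)
    rw [subJ_sum] at h1
    refine h1 ?_
    rw [← subJ_nonempty n _ (sum_lt n S), subJ_sum]
    exact hS

/-! ### The isomorphism test -/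

theorem iso_coded_iff {N n e : ℕ} (A : Set (Vec N)) (w : Fin (n + 1) → Vec N) :
    (codedL n e).Iso (tau A w) ↔ ∃ σ : Fin (n + 1) → Fin (n + 1),
      Function.Injective σ ∧ ∀ S : Finset (Fin (n + 1)), S.Nonempty →
        (e.testBit (∑ i ∈ S, 2 ^ (i : ℕ)) = true ↔ ∑ i ∈ S, w (σ i) ∈ A) := by
  classical
  constructor
  · rintro ⟨σ, hσ⟩
    refine ⟨σ, σ.injective, fun S hS => ?_⟩
    obtain ⟨k, hk⟩ : ∃ k, S.card = k + 1 := ⟨S.card - 1, by
      have := hS.card_pos; omega⟩
    have h := hσ k (S.orderEmbOfFin hk)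
    have hinj : Function.Injective (S.orderEmbOfFin hk) := (S.orderEmbOfFin hk).injective
    have hinj2 : Function.Injective (fun i => σ (S.orderEmbOfFin hk i)) :=
      σ.injective.comp hinj
    have him : univ.image (S.orderEmbOfFin hk) = S := Finset.image_orderEmbOfFin_univ S hk
    have hsum : ∀ {β : Type} [AddCommMonoid β] (f : Fin (n + 1) → β),
        ∑ i, f (S.orderEmbOfFin hk i) = ∑ i ∈ S, f i := by
      intro β _ f
      conv_rhs => rw [← him]
      rw [Finset.sum_image (fun a _ b _ hab => hinj hab)]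
    have h' : (Function.Injective (S.orderEmbOfFin hk) ∧
        e.testBit (∑ i, 2 ^ (S.orderEmbOfFin hk i : ℕ)) = true) ↔
        (Function.Injective (fun i => σ (S.orderEmbOfFin hk i)) ∧
          ∑ i, w (σ (S.orderEmbOfFin hk i)) ∈ A) := h
    rw [hsum (fun i => 2 ^ (i : ℕ)), hsum (fun i => w (σ i))] at h'
    simpa [hinj, hinj2] using h'
  · rintro ⟨σ, hσ, h⟩
    have hbij : Function.Bijective σ := Finite.injective_iff_bijective.mp hσ
    refine ⟨Equiv.ofBijective σ hbij, fun k v => ?_⟩
    change (Function.Injective v ∧ e.testBit (∑ i, 2 ^ (v i : ℕ)) = true) ↔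
        (Function.Injective (fun i => σ (v i)) ∧ ∑ i, w (σ (v i)) ∈ A)
    rw [show (fun i => σ (v i)) = σ ∘ v from rfl, hσ.of_comp_iff]
    refine and_congr_right fun hv => ?_
    have h1 := h (univ.image v) ⟨v 0, Finset.mem_image_of_mem v (Finset.mem_univ 0)⟩
    rw [Finset.sum_image (fun a _ b _ hab => hv hab),
      Finset.sum_image (fun a _ b _ hab => hv hab)] at h1
    exact h1

/-- the value at `i` of the selfmap of `{0, …, n-1}` with number `σ` -/
def selfm (n σ i : ℕ) : ℕ := σ / n ^ i % n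

theorem exists_selfm_iff (n : ℕ) (P : (Fin (n + 1) → Fin (n + 1)) → Prop) :
    (∃ σ, P σ) ↔ ∃ σ < (n + 1) ^ (n + 1),
      P (fun i => ⟨selfm (n + 1) σ i, Nat.mod_lt _ (Nat.succ_pos n)⟩) := by
  constructor
  · rintro ⟨σ, h⟩
    refine ⟨finFunctionFinEquiv σ, (finFunctionFinEquiv σ).2, ?_⟩
    convert h using 1
    funext i
    have := congrFun (finFunctionFinEquiv.symm_apply_apply σ) i
    rw [← this]
    rfl
  · rintro ⟨σ, -, h⟩
    exact ⟨_, h⟩

/-- the number of the vector `∑ i ∈ J, w (σ i)` -/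
def vsum (N n t σ J : ℕ) : ℕ :=
  digs N (fun j => ∑ i ∈ range n, bit J i * bit t (N * selfm n σ i + j))

theorem vsum_eq (N n t σ J : ℕ) :
    vsum N (n + 1) t σ J = encV (∑ i ∈ subJ (n + 1) J,
      tupV N (n + 1) t ⟨selfm (n + 1) σ i, Nat.mod_lt _ (Nat.succ_pos n)⟩) := by
  refine eq_of_bit (n := N) (digs_lt _ _) (encV_lt _) fun j hj => ?_
  have h := bit_encV (∑ i ∈ subJ (n + 1) J,
      tupV N (n + 1) t ⟨selfm (n + 1) σ i, Nat.mod_lt _ (Nat.succ_pos n)⟩) ⟨j, hj⟩
  simp only at h
  rw [h]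
  unfold vsum
  rw [bit_digs _ _ hj, Finset.sum_apply]
  rw [← ZMod.val_natCast]
  congr 1
  rw [Finset.sum_range, Nat.cast_sum]
  unfold subJ
  rw [Finset.sum_filter]
  refine Finset.sum_congr rfl fun i _ => ?_
  have h2 := bit_lt J i
  unfold tupV
  split_ifs with h3
  · rw [h3, one_mul]
  · have : bit J i = 0 := by omega
    rw [this, zero_mul, Nat.cast_zero]

/-- the isomorphism test in terms of numbers -/
def IsoP (N b n e t : ℕ) : Prop := ∃ σ < n ^ n,
  (∀ i < n, ∀ j < n, selfm n σ i = selfm n σ j → i = j) ∧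
  ∀ J < 2 ^ n, J ≠ 0 → (bit e J = 1 ↔ bit b (vsum N n t σ J) = 1)

theorem isoP_iff (N b n e t : ℕ) :
    IsoP N b (n + 1) e t ↔ (codedL n e).Iso (tau (setOf' N b) (tupV N (n + 1) t)) := by
  rw [iso_coded_iff, exists_selfm_iff]
  unfold IsoP
  refine exists_congr fun σ => and_congr_right fun _ => and_congr ?_ ?_
  · constructor
    · intro h i j hij
      exact Fin.ext (h i i.2 j j.2 (congrArg Fin.val hij))
    · intro h i hi j hj hij
      exact congrArg Fin.val (@h ⟨i, hi⟩ ⟨j, hj⟩ (Fin.ext hij))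
  · rw [forall_subset_iff]
    refine forall_congr' fun J => forall_congr' fun hJ => forall_congr' fun _ => ?_
    rw [sum_subJ _ _ hJ, testBit_iff, vsum_eq]
    unfold setOf'
    rw [Set.mem_ofPred_eq, testBit_iff]

open Classical in
/-- the number of good tuples -/
noncomputable def numI (N b n e : ℕ) : ℕ :=
  ∑ t ∈ range (2 ^ (N * n)), if IsoP N b n e t then 1 else 0

theorem dens_coded (N b n e : ℕ) :
    dens (codedModel (n, e)) (setOf' N b) = numI N b (n + 1) e / ((2 ^ (N * (n + 1)) : ℕ) : ℝ) := by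
  classical
  change dens ⟨n, codedL n e⟩ (setOf' N b) = _
  unfold dens numI
  congr 2
  · rw [card_tupV]
    refine Finset.sum_congr rfl fun t _ => ?_
    by_cases h : IsoP N b (n + 1) e t
    · rw [if_pos h, if_pos ((isoP_iff _ _ _ _ _).mp h)]
    · rw [if_neg h, if_neg (mt (isoP_iff _ _ _ _ _).mpr h)]
  · simp only [Fintype.card_fun, Fintype.card_fin, ZMod.card]
    rw [← pow_mul]

/-- every class of finite models has a code -/
theorem codedClass_surj : Function.Surjective codedClass := by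
  classical
  intro c
  induction c using Quotient.inductionOn with
  | _ M =>
  obtain ⟨n, M⟩ := M
  let edge : Finset (Fin (n + 1)) → Prop := fun S =>
    ∃ (k : ℕ) (v : Fin (k + 1) → Fin (n + 1)), M.E k v ∧ univ.image v = S
  refine ⟨(n, digs (2 ^ (n + 1)) (fun J => if edge (subJ (n + 1) J) then 1 else 0)),
    Quotient.sound ?_⟩
  refine ⟨Equiv.refl _, fun k (v : Fin (k + 1) → Fin (n + 1)) => ?_⟩
  change (Function.Injective v ∧ (digs (2 ^ (n + 1))
    (fun J => if edge (subJ (n + 1) J) then 1 else 0)).testBit (∑ i, 2 ^ (v i : ℕ)) = true) ↔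
      M.E k v
  have key : Function.Injective v → ((digs (2 ^ (n + 1))
    (fun J => if edge (subJ (n + 1) J) then 1 else 0)).testBit (∑ i, 2 ^ (v i : ℕ)) = true ↔
      edge (univ.image v)) := by
    intro hv
    have h1 : ∑ i, 2 ^ (v i : ℕ) = ∑ i ∈ univ.image v, 2 ^ (i : ℕ) := by
      rw [Finset.sum_image (fun a _ b _ hab => hv hab)]
    rw [h1, testBit_iff, bit_digs _ _ (sum_lt _ _), subJ_sum]
    by_cases h : edge (univ.image v)
    · simp [h]
    · simp [h]
  constructor
  · rintro ⟨hv, h⟩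
    obtain ⟨k', v', hE, him⟩ := (key hv).mp h
    have hv' := M.inj k' v' hE
    have hk : k' = k := by
      have h1 : (univ.image v').card = k' + 1 := by
        rw [Finset.card_image_of_injective _ hv']; simp
      have h2 : (univ.image v).card = k + 1 := by
        rw [Finset.card_image_of_injective _ hv]; simp
      rw [him, h2] at h1
      omega
    subst hk
    -- `v = v' ∘ σ`
    have hmem : ∀ i, ∃ j, v' j = v i := by
      intro i
      have : v i ∈ univ.image v' := by
        rw [him]; exact Finset.mem_image_of_mem v (Finset.mem_univ i)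
      obtain ⟨j, -, hj⟩ := Finset.mem_image.mp this
      exact ⟨j, hj⟩
    choose s hs using hmem
    have hsinj : Function.Injective s := by
      intro a b hab
      apply hv
      rw [← hs a, ← hs b, hab]
    have h3 := M.symm k' v' (Equiv.ofBijective s (Finite.injective_iff_bijective.mp hsinj)) hE
    have h4 : v' ∘ (Equiv.ofBijective s (Finite.injective_iff_bijective.mp hsinj)) = v := by
      funext i
      exact hs i
    rwa [h4] at h3
  · intro hE
    have hv := M.inj k v hE
    exact ⟨hv, (key hv).mpr ⟨k, v, hE, rfl⟩⟩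

end Pool.Agent.W220.Lin
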