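import Pool.Agent.W220.LinSample

/-!
# Lineons: sampling with and without repetition
-/

set_option autoImplicit false

namespace Pool.Agent.W220.Lin

open Finset

theorem iso_tau_induce {m n : ℕ} (A : Set (Vec m)) (w : Fin (n + 1) → Vec m)
    (hw : Function.Injective w) :
    (tau A w).Iso ((modelOf A).induce (univ.image w)) := by
  classical
  let f : Fin (n + 1) → (univ.image w : Finset (Vec m)) :=
    fun i => ⟨w i, Finset.mem_image_of_mem w (Finset.mem_univ i)⟩
  have hf : Function.Bijective f := by
    constructor
    · intro i j hij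
      exact hw (congrArg Subtype.val hij)
    · rintro ⟨y, hy⟩
      obtain ⟨i, -, rfl⟩ := Finset.mem_image.mp hy
      exact ⟨i, rfl⟩
  refine ⟨Equiv.ofBijective f hf, fun k v => ?_⟩
  change (Function.Injective v ∧ ∑ i, w (v i) ∈ A) ↔
    (Function.Injective (fun i => w (v i)) ∧ ∑ i, w (v i) ∈ A)
  rw [show (fun i => w (v i)) = w ∘ v from rfl, hw.of_comp_iff]

theorem card_inj_image {V : Type} [Fintype V] [DecidableEq V] (s : ℕ) (S : Finset V)
    (hS : S.card = s) :
    (univ.filter (fun w : Fin s → V => Function.Injective w ∧ univ.image w = S)).card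
      = s.factorial := by
  classical
  have h0 : Fintype.card (Fin s ≃ S) = s.factorial := by
    have e : Fin s ≃ S := (Fintype.equivFinOfCardEq (by simpa using hS)).symm
    rw [Fintype.card_equiv e, Fintype.card_fin]
  rw [← h0, ← Finset.card_univ]
  symm
  refine Finset.card_bij (fun e _ => fun i => (e i : V)) ?_ ?_ ?_
  · intro e _
    simp only [Finset.mem_filter, Finset.mem_univ, true_and]
    refine ⟨fun i j hij => e.injective (Subtype.ext hij), ?_⟩
    ext y
    simp only [Finset.mem_image, Finset.mem_univ, true_and]
    constructor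
    · rintro ⟨i, rfl⟩; exact (e i).2
    · intro hy
      exact ⟨e.symm ⟨y, hy⟩, by simp⟩
  · intro e _ e' _ h
    ext i
    exact congrFun h i
  · intro w hw
    simp only [Finset.mem_filter, Finset.mem_univ, true_and] at hw
    obtain ⟨hinj, him⟩ := hw
    let f : Fin s → S := fun i => ⟨w i, by rw [← him]; exact Finset.mem_image_of_mem w (Finset.mem_univ i)⟩
    have hf : Function.Bijective f := by
      constructor
      · intro i j hij
        exact hinj (congrArg Subtype.val hij)
      · rintro ⟨y, hy⟩
        rw [← him] at hy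
        obtain ⟨i, -, rfl⟩ := Finset.mem_image.mp hy
        exact ⟨i, rfl⟩
    exact ⟨Equiv.ofBijective f hf, Finset.mem_univ _, rfl⟩

theorem card_injective {V : Type} [Fintype V] [DecidableEq V] (s : ℕ) :
    (univ.filter (fun w : Fin s → V => Function.Injective w)).card
      = (Fintype.card V).descFactorial s := by
  classical
  rw [← Fintype.card_subtype,
    Fintype.card_congr (Equiv.subtypeInjectiveEquivEmbedding (Fin s) V),
    Fintype.card_embedding_eq, Fintype.card_fin]

open Classical in
theorem card_good {m : ℕ} (M : FinLModel) (A : Set (Vec m)) :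
    (univ.filter (fun w : Fin (M.1 + 1) → Vec m =>
        Function.Injective w ∧ M.2.Iso (tau A w))).card =
      (M.1 + 1).factorial * (((Finset.univ : Finset (Vec m)).powersetCard (M.1 + 1)).filter
      (fun S => M.2.Iso ((modelOf A).induce S))).card := by
  rw [Finset.card_eq_sum_card_fiberwise (f := fun w => univ.image w)
    (t := ((Finset.univ : Finset (Vec m)).powersetCard (M.1 + 1)).filter
      (fun S => M.2.Iso ((modelOf A).induce S)))]
  · rw [Finset.sum_congr rfl (g := fun _ => (M.1 + 1).factorial)]
    · rw [Finset.sum_const, smul_eq_mul, mul_comm]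
    · intro S hS
      simp only [Finset.mem_filter, Finset.mem_powersetCard] at hS
      rw [← card_inj_image (M.1 + 1) S hS.1.2, Finset.filter_filter]
      refine congrArg Finset.card (Finset.filter_congr fun w _ => ?_)
      constructor
      · rintro ⟨⟨h1, h2⟩, h3⟩
        exact ⟨h1, h3⟩
      · rintro ⟨h1, h3⟩
        refine ⟨⟨h1, ?_⟩, h3⟩
        have h4 := iso_tau_induce A w h1
        have h5 := hS.2
        rw [← h3] at h5
        exact h5.trans h4.symm
  · intro w hw
    simp only [Finset.coe_filter, Finset.mem_univ, true_and, Set.mem_ofPred_eq,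
      Finset.mem_powersetCard] at hw ⊢
    refine ⟨⟨Finset.subset_univ _, ?_⟩, hw.2.trans (iso_tau_induce A w hw.1)⟩
    rw [Finset.card_image_of_injective _ hw.1]
    simp

theorem pow_le_descFactorial (N s : ℕ) :
    N ^ (s + 1) ≤ N * N.descFactorial s + s ^ 2 * N ^ s := by
  induction s with
  | zero => simp
  | succ s ih =>
    have h1 : N * N.descFactorial s ≤ N.descFactorial (s + 1) + s * N.descFactorial s := by
      rw [Nat.descFactorial_succ, ← add_mul]
      exact Nat.mul_le_mul_right _ (by omega)
    have h2 : N.descFactorial s ≤ N ^ s := Nat.descFactorial_le_pow N s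
    calc N ^ (s + 1 + 1) = N * N ^ (s + 1) := by ring
      _ ≤ N * (N * N.descFactorial s + s ^ 2 * N ^ s) := Nat.mul_le_mul_left _ ih
      _ ≤ N * (N.descFactorial (s + 1) + s * N.descFactorial s + s ^ 2 * N ^ s) := by gcongr
      _ ≤ N * (N.descFactorial (s + 1) + s * N ^ s + s ^ 2 * N ^ s) := by gcongr
      _ = N * N.descFactorial (s + 1) + (s + s ^ 2) * N ^ (s + 1) := by ring
      _ ≤ N * N.descFactorial (s + 1) + (s + 1) ^ 2 * N ^ (s + 1) := by
          gcongr
          nlinarith

/-- an elementary inequality about conditional probabilities -/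
theorem abs_cond_le {a b i w : ℝ} (ha : 0 ≤ a) (hb : 0 ≤ b) (hai : a ≤ i) (hbw : b ≤ w - i)
    (hw : 0 < w) (hi : 0 ≤ i) : |a / i - (a + b) / w| ≤ (w - i) / w := by
  rcases hi.eq_or_lt with h0 | hpos
  · subst h0
    have ha0 : a = 0 := le_antisymm hai ha
    subst ha0
    rw [zero_div, zero_add, zero_sub, abs_neg, abs_of_nonneg (by positivity), sub_zero]
    rw [sub_zero] at hbw
    gcongr
  · have hiw : i ≤ w := by linarith
    rw [abs_le]
    constructor
    · have h1 : a / w ≤ a / i := div_le_div_of_nonneg_left ha hpos hiw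
      have h2 : b / w ≤ (w - i) / w := by gcongr
      rw [add_div]
      linarith
    · have h2 : 0 ≤ b / w := by positivity
      have h3 : a / i - a / w = a * (w - i) / (i * w) := by
        field_simp
      have h4 : a * (w - i) / (i * w) ≤ (w - i) / w := by
        rw [div_le_div_iff₀ (by positivity) hw]
        have : 0 ≤ (w - i) * w * (i - a) := by
          have h5 : 0 ≤ w - i := by linarith
          have h6 : 0 ≤ i - a := by linarith
          positivity
        nlinarith
      rw [add_div]
      linarith

theorem abs_density_sub_dens {m : ℕ} (M : FinLModel) (A : Set (Vec m)) :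
    |density M (modelOf A) - dens M A| ≤ ((M.1 + 1 : ℕ) : ℝ) ^ 2 / 2 ^ m := by
  classical
  set s := M.1 + 1 with hs
  have hV : Fintype.card (Vec m) = 2 ^ m := card_vec m
  set I := univ.filter (fun w : Fin (M.1 + 1) → Vec m => Function.Injective w) with hI
  set G := univ.filter (fun w : Fin (M.1 + 1) → Vec m => M.2.Iso (tau A w)) with hG
  have hIc : I.card = (2 ^ m).descFactorial s := by
    rw [hI, card_injective, hV]
  have hW : Fintype.card (Fin (M.1 + 1) → Vec m) = (2 ^ m) ^ s := by
    rw [Fintype.card_fun, Fintype.card_fin, hV]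
  have hgood : (I ∩ G).card = s.factorial * (((Finset.univ : Finset (Vec m)).powersetCard
      (M.1 + 1)).filter (fun S => M.2.Iso ((modelOf A).induce S))).card := by
    rw [← card_good M A]
    congr 1
    ext w
    simp [hI, hG]
  have hdens : density M (modelOf A) = ((I ∩ G).card : ℝ) / (I.card : ℝ) := by
    rw [hgood, hIc, Nat.descFactorial_eq_factorial_mul_choose]
    unfold density
    have hf : (s.factorial : ℝ) ≠ 0 := by exact_mod_cast Nat.factorial_ne_zero s
    push_cast
    rw [mul_div_mul_left _ _ hf, hV]
  have hdens' : dens M A = (((I ∩ G).card : ℝ) + ((G \ I).card : ℝ)) /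
      (((2 ^ m) ^ s : ℕ) : ℝ) := by
    unfold dens
    rw [hW]
    congr 1
    have : (G ∩ I).card + (G \ I).card = G.card := Finset.card_inter_add_card_sdiff G I
    rw [Finset.inter_comm] at this
    rw [← hG, ← this]
    push_cast
    rfl
  rw [hdens, hdens']
  have hwi : I.card + (univ \ I).card = (2 ^ m) ^ s := by
    rw [← hW, ← Finset.card_univ, add_comm]
    exact Finset.card_sdiff_add_card_eq_card (Finset.subset_univ I)
  have hwi' : (((2 ^ m) ^ s : ℕ) : ℝ) - (I.card : ℝ) = ((univ \ I).card : ℝ) := by
    rw [← hwi]; push_cast; ring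
  refine (abs_cond_le (by positivity) (by positivity) ?_ ?_ (by positivity)
    (by positivity)).trans ?_
  · exact_mod_cast Finset.card_le_card Finset.inter_subset_left
  · rw [hwi']
    exact_mod_cast Finset.card_le_card (Finset.sdiff_subset_sdiff (Finset.subset_univ _)
      (Finset.Subset.refl _))
  · have h := pow_le_descFactorial (2 ^ m) s
    rw [← hIc] at h
    have h' : ((2 : ℝ) ^ m) ^ (s + 1) ≤ 2 ^ m * (I.card : ℝ) + (s : ℝ) ^ 2 * (2 ^ m) ^ s := by
      exact_mod_cast h
    rw [div_le_div_iff₀ (by positivity) (by positivity)]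
    push_cast
    rw [pow_succ] at h'
    nlinarith [h']

end Pool.Agent.W220.Lin
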