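import Mathlib

/-!
# Lineons: definitions

Models of `T_Lin`, sampling densities, the models `M_A` of subsets `A` of `F_2^m`, lineons, and an
explicit coding of polynomials with rational coefficients in the coordinates of `[0,1]^𝓜`.
-/

set_option autoImplicit false

namespace Pool.Agent.W220.Lin

/-- A model of `T_Lin` on the vertex set `V`: for every arity `k + 1 ≥ 1` a predicate on
`(k+1)`-tuples of vertices, which is symmetric and holds only on tuples of pairwise distinct
vertices. -/
structure LModel (V : Type) where
  /-- the predicate of arity `k + 1` -/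
  E : (k : ℕ) → (Fin (k + 1) → V) → Prop
  symm : ∀ (k : ℕ) (v : Fin (k + 1) → V) (σ : Equiv.Perm (Fin (k + 1))), E k v → E k (v ∘ σ)
  inj : ∀ (k : ℕ) (v : Fin (k + 1) → V), E k v → Function.Injective v

/-- The submodel of `N` induced on the set `S` of vertices. -/
def LModel.induce {V : Type} (N : LModel V) (S : Finset V) : LModel S where
  E k v := N.E k (fun i => (v i : V))
  symm k v σ h := N.symm k (fun i => (v i : V)) σ h
  inj k _ h := fun _ _ hij => N.inj k _ h (congrArg Subtype.val hij)

/-- Isomorphism of models. -/
def LModel.Iso {V W : Type} (M : LModel V) (N : LModel W) : Prop :=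
  ∃ e : V ≃ W, ∀ (k : ℕ) (v : Fin (k + 1) → V), M.E k v ↔ N.E k (fun i => e (v i))

theorem LModel.Iso.refl {V : Type} (M : LModel V) : M.Iso M := ⟨Equiv.refl V, fun _ _ => Iff.rfl⟩

theorem LModel.Iso.symm {V W : Type} {M : LModel V} {N : LModel W} (h : M.Iso N) : N.Iso M := by
  obtain ⟨e, he⟩ := h
  refine ⟨e.symm, fun k v => ?_⟩
  rw [he]
  simp

theorem LModel.Iso.trans {U V W : Type} {L : LModel U} {M : LModel V} {N : LModel W}
    (h : L.Iso M) (h' : M.Iso N) : L.Iso N := by
  obtain ⟨e, he⟩ := h
  obtain ⟨e', he'⟩ := h'
  exact ⟨e.trans e', fun k v => (he k v).trans (he' k _)⟩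

/-- A finite (non-empty) model, on the vertex set `{0, …, n}` for some `n`. -/
abbrev FinLModel : Type := Σ n : ℕ, LModel (Fin (n + 1))

/-- Isomorphism as an equivalence relation on finite models. -/
instance isoSetoid : Setoid FinLModel where
  r M N := M.2.Iso N.2
  iseqv := ⟨fun M => LModel.Iso.refl M.2, fun h => h.symm, fun h h' => h.trans h'⟩

/-- The countable set `𝓜` of isomorphism classes of finite models of `T_Lin`. -/
abbrev IsoClass : Type := Quotient isoSetoid

open Classical in
/-- `p(M,N)`: the probability that a uniformly random subset of `V(N)` with as many elements as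
`M` has vertices induces a submodel isomorphic to `M` (it is `0`, being the quotient `0 / 0`, if
`N` has fewer vertices than `M`). -/
noncomputable def density {V : Type} [Fintype V] (M : FinLModel) (N : LModel V) : ℝ :=
  (((Finset.univ : Finset V).powersetCard (M.1 + 1)).filter
      (fun S => M.2.Iso (N.induce S))).card / ((Fintype.card V).choose (M.1 + 1))

theorem density_mem {V : Type} [Fintype V] (M : FinLModel) (N : LModel V) :
    density M N ∈ Set.Icc (0 : ℝ) 1 := by
  classical
  refine ⟨by unfold density; positivity, ?_⟩
  unfold density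
  have h : (((Finset.univ : Finset V).powersetCard (M.1 + 1)).filter
      (fun S => M.2.Iso (N.induce S))).card ≤ (Fintype.card V).choose (M.1 + 1) := by
    refine (Finset.card_filter_le _ _).trans ?_
    rw [Finset.card_powersetCard, Finset.card_univ]
  refine div_le_one_of_le₀ ?_ (by positivity)
  exact_mod_cast h

theorem density_congr {V : Type} [Fintype V] {M M' : FinLModel} (h : M.2.Iso M'.2)
    (N : LModel V) : density M N = density M' N := by
  classical
  obtain ⟨n, M⟩ := M
  obtain ⟨n', M'⟩ := M'
  have hn : n = n' := by
    obtain ⟨e, -⟩ := h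
    have := Fintype.card_congr e
    simpa using this
  subst hn
  unfold density
  congr 2
  refine congrArg Finset.card (Finset.filter_congr fun S _ => ?_)
  exact ⟨fun h' => h.symm.trans h', fun h' => h.trans h'⟩

/-- The model `M_A` on `F_2^m`: the predicate of arity `k + 1` holds on `v` exactly when the
`v i` are pairwise distinct and their sum lies in `A`. -/
def modelOf {m : ℕ} (A : Set (Fin m → ZMod 2)) : LModel (Fin m → ZMod 2) where
  E k v := Function.Injective v ∧ ∑ i, v i ∈ A
  symm k v σ h := ⟨h.1.comp σ.injective, by
    have : ∑ i, (v ∘ σ) i = ∑ i, v i := Equiv.sum_comp σ v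
    rw [this]; exact h.2⟩
  inj k v h := h.1

/-- The point `p(-, M_A)` of `[0,1]^𝓜`. -/
noncomputable def point {m : ℕ} (A : Set (Fin m → ZMod 2)) : IsoClass → unitInterval :=
  Quotient.lift (fun M => (⟨density M (modelOf A), density_mem M _⟩ : unitInterval))
    (fun _ _ h => Subtype.ext (density_congr h _))

/-- A lineon is an accumulation point in `[0,1]^𝓜` (with the product topology) of the set of all
points `p(-, M_A)`, where `m ≥ 1` and `A ⊆ F_2^m`. -/
def IsLineon (x : IsoClass → unitInterval) : Prop :=
  AccPt x (Filter.principal {y | ∃ m : ℕ, 1 ≤ m ∧ ∃ A : Set (Fin m → ZMod 2), y = point A})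

/-- The explicit list of all finite models: the pair `(n, e)` of natural numbers codes the model
on `{0, …, n}` whose predicates hold exactly on the tuples of pairwise distinct vertices `v i`
for which the binary digit of `e` at the place `∑ i, 2 ^ (v i)` is a one. -/
def codedL (n e : ℕ) : LModel (Fin (n + 1)) where
  E _ v := Function.Injective v ∧ e.testBit (∑ i, 2 ^ (v i : ℕ)) = true
  symm k v σ h := ⟨h.1.comp σ.injective, by
    have : ∑ i, 2 ^ ((v ∘ σ) i : ℕ) = ∑ i, 2 ^ (v i : ℕ) :=
      Equiv.sum_comp σ (fun i => 2 ^ (v i : ℕ))
    rw [this]; exact h.2⟩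
  inj _ _ h := h.1

/-- The finite model with code `c = (n, e)`. -/
def codedModel (c : ℕ × ℕ) : FinLModel := ⟨c.1, codedL c.1 c.2⟩

/-- The isomorphism class with code `(n, e)`. -/
def codedClass (c : ℕ × ℕ) : IsoClass := Quotient.mk _ (codedModel c)

/-- Codes of polynomials with rational coefficients in finitely many of the coordinates `x_M`,
`M ∈ 𝓜`: a list of terms, each of which consists of a triple `(a, b, c)`, standing for the rational
coefficient `(a - b) / (c + 1)`, and the list of the codes of the variables of its monomial. -/
abbrev PolyCode : Type := List ((ℕ × ℕ × ℕ) × List (ℕ × ℕ))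

/-- The polynomial with a given code. -/
noncomputable def toPoly (P : PolyCode) : MvPolynomial IsoClass ℚ :=
  (P.map fun t => MvPolynomial.C (((t.1.1 : ℚ) - t.1.2.1) / (t.1.2.2 + 1)) *
    (t.2.map fun c => MvPolynomial.X (codedClass c)).prod).sum

/-- The value of a polynomial at a point of `[0,1]^𝓜`. -/
noncomputable def value (P : MvPolynomial IsoClass ℚ) (x : IsoClass → unitInterval) : ℝ :=
  MvPolynomial.aeval (fun M => (x M : ℝ)) P

end Pool.Agent.W220.Lin
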