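import Pool.Agent.W220.LinPoly

/-!
# Lineons: the set of lineons is the solution set of the explicit family
-/

set_option autoImplicit false

namespace Pool.Agent.W220.Lin

open Finset Filter Topology

theorem point_coe {m : ℕ} (A : Set (Vec m)) (M : FinLModel) :
    (point A (Quotient.mk _ M) : ℝ) = density M (modelOf A) := rfl

theorem point_coded {m : ℕ} (A : Set (Vec m)) (c : ℕ × ℕ) :
    (point A (codedClass c) : ℝ) = density (codedModel c) (modelOf A) := rfl

theorem term_nonneg (x : IsoClass → unitInterval) (k N b : ℕ) :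
    0 ≤ (k : ℝ) - ∑ i ∈ range k, ((x (codedClass i.unpair) : ℝ) -
        dens (codedModel i.unpair) (setOf' N b)) ^ 2 := by
  have h : ∑ i ∈ range k, ((x (codedClass i.unpair) : ℝ) -
        dens (codedModel i.unpair) (setOf' N b)) ^ 2 ≤ ∑ i ∈ range k, (1 : ℝ) := by
    refine Finset.sum_le_sum fun i _ => ?_
    have h1 := (x (codedClass i.unpair)).2
    have h2 := dens_mem (codedModel i.unpair) (setOf' N b)
    have h3 : |(x (codedClass i.unpair) : ℝ) - dens (codedModel i.unpair) (setOf' N b)| ≤ 1 := by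
      rw [abs_le]; constructor <;> linarith [h1.1, h1.2, h2.1, h2.2]
    rw [← sq_abs]
    exact pow_le_one₀ (abs_nonneg _) h3
  simp at h
  linarith

/-- from the inequalities to approximating sets -/
theorem exists_set_of_ineq (x : IsoClass → unitInterval)
    (h : ∀ k j M, 0 ≤ ev (fam k j M) x) (k j : ℕ) :
    ∃ B : Set (Vec (2 * k + 4 + j)), ∑ i ∈ range k, ((x (codedClass i.unpair) : ℝ) -
        dens (codedModel i.unpair) B) ^ 2 ≤ k / 2 ^ j := by
  by_contra hcon
  push Not at hcon
  set N := 2 * k + 4 + j with hN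
  set t : ℕ → ℝ := fun b => (k : ℝ) - ∑ i ∈ range k, ((x (codedClass i.unpair) : ℝ) -
        dens (codedModel i.unpair) (setOf' N b)) ^ 2 with ht
  set τ : ℝ := k - k / 2 ^ j with hτ
  have h0 : ∀ b, 0 ≤ t b := fun b => term_nonneg x k N b
  have h1 : ∀ b, t b < τ := fun b => by
    have := hcon (setOf' N b)
    simp only [ht, hτ]
    linarith
  have hτpos : 0 < τ := lt_of_le_of_lt (h0 0) (h1 0)
  have hlim : Tendsto (fun M : ℕ => ∑ b ∈ range (2 ^ 2 ^ N), (t b / τ) ^ M) atTop (𝓝 0) := by
    have : (0 : ℝ) = ∑ b ∈ range (2 ^ 2 ^ N), (0 : ℝ) := by simp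
    rw [this]
    refine tendsto_finsetSum _ fun b _ => ?_
    refine tendsto_pow_atTop_nhds_zero_of_lt_one (div_nonneg (h0 b) hτpos.le) ?_
    rw [div_lt_one hτpos]
    exact h1 b
  obtain ⟨M, hM⟩ := ((tendsto_order.1 hlim).2 1 one_pos).exists
  have h2 := h k j M
  rw [ev_fam] at h2
  have h3 : ∑ b ∈ range (2 ^ 2 ^ N), (t b) ^ M < τ ^ M := by
    have h4 : ∑ b ∈ range (2 ^ 2 ^ N), (t b) ^ M =
        (∑ b ∈ range (2 ^ 2 ^ N), (t b / τ) ^ M) * τ ^ M := by
      rw [Finset.sum_mul]
      refine Finset.sum_congr rfl fun b _ => ?_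
      rw [div_pow, div_mul_cancel₀ _ (pow_ne_zero _ hτpos.ne')]
    rw [h4]
    calc _ < 1 * τ ^ M := mul_lt_mul_of_pos_right hM (by positivity)
      _ = τ ^ M := one_mul _
  linarith

/-! ### Points of different dimensions are different -/

/-- transport of a model along a bijection -/
def LModel.transport {V W : Type} (e : W ≃ V) (N : LModel V) : LModel W where
  E k v := N.E k (fun i => e (v i))
  symm k v σ h := N.symm k (fun i => e (v i)) σ h
  inj k _ h := fun _ _ hij => N.inj k _ h (congrArg e hij)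

theorem point_ne {m m' : ℕ} (hm : m < m') (A : Set (Vec m)) (A' : Set (Vec m')) :
    point A ≠ point A' := by
  classical
  intro hcon
  obtain ⟨n, hn⟩ : ∃ n, 2 ^ m' = n + 1 := ⟨2 ^ m' - 1, by
    have : 1 ≤ 2 ^ m' := Nat.one_le_two_pow
    omega⟩
  have hcard : Fintype.card (Vec m') = n + 1 := by rw [card_vec, hn]
  let e : Fin (n + 1) ≃ Vec m' := (Fintype.equivFinOfCardEq hcard).symm
  let M : FinLModel := ⟨n, (modelOf A').transport e⟩
  have h1 : density M (modelOf A') = 1 := by
    have h2 : (Finset.univ : Finset (Vec m')).powersetCard (n + 1) = {Finset.univ} := by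
      rw [← hcard, ← Finset.card_univ, Finset.powersetCard_self]
    have h3 : (Fintype.card (Vec m')).choose (n + 1) = 1 := by rw [hcard, Nat.choose_self]
    change ((((Finset.univ : Finset (Vec m')).powersetCard (n + 1)).filter
      (fun S => ((modelOf A').transport e).Iso ((modelOf A').induce S))).card : ℝ) /
        ((Fintype.card (Vec m')).choose (n + 1) : ℕ) = 1
    rw [h2, h3, Finset.filter_singleton, if_pos]
    · simp
    · let e2 : Fin (n + 1) ≃ (Finset.univ : Finset (Vec m')) :=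
        e.trans (Equiv.subtypeUnivEquiv (fun x => Finset.mem_univ x)).symm
      exact ⟨e2, fun k v => Iff.rfl⟩
  have h0 : density M (modelOf A) = 0 := by
    unfold density
    have : Fintype.card (Vec m) < M.1 + 1 := by
      rw [card_vec]
      change 2 ^ m < n + 1
      rw [← hn]
      exact Nat.pow_lt_pow_right (by norm_num) hm
    rw [Nat.choose_eq_zero_of_lt this]
    simp
  have h3 := congrFun hcon (Quotient.mk _ M)
  have h4 : (point A (Quotient.mk _ M) : ℝ) = point A' (Quotient.mk _ M) := by rw [h3]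
  rw [point_coe, point_coe, h1, h0] at h4
  exact zero_ne_one h4

/-- from approximating sets to lineons -/
theorem isLineon_of_sets (x : IsoClass → unitInterval)
    (h : ∀ k j : ℕ, ∃ B : Set (Vec (2 * k + 4 + j)),
      ∑ i ∈ range k, ((x (codedClass i.unpair) : ℝ) -
        dens (codedModel i.unpair) B) ^ 2 ≤ k / 2 ^ j) : IsLineon x := by
  choose B hB using fun k => h k k
  have hconv : Tendsto (fun k => point (B k)) atTop (𝓝 x) := by
    rw [tendsto_pi_nhds]
    intro c
    obtain ⟨cc, hcc⟩ := codedClass_surj c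
    obtain ⟨i, hi⟩ : ∃ i : ℕ, i.unpair = cc := ⟨Nat.pair cc.1 cc.2, by simp⟩
    subst hi
    subst hcc
    rw [tendsto_subtype_rng, tendsto_iff_dist_tendsto_zero]
    have hb : ∀ᶠ k in atTop, dist (point (B k) (codedClass i.unpair) : ℝ)
        (x (codedClass i.unpair) : ℝ) ≤
        (((i.unpair.1 + 1 : ℕ) : ℝ) ^ 2 * (1 / 2) ^ k + Real.sqrt ((k : ℝ) * (1 / 2) ^ k)) := by
      filter_upwards [eventually_gt_atTop i] with k hk
      rw [point_coded, Real.dist_eq]
      have e1 := abs_density_sub_dens (codedModel i.unpair) (B k)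
      have e2 : |dens (codedModel i.unpair) (B k) - (x (codedClass i.unpair) : ℝ)| ≤
          Real.sqrt ((k : ℝ) * (1 / 2) ^ k) := by
        refine Real.abs_le_sqrt ?_
        have e3 : ((x (codedClass i.unpair) : ℝ) - dens (codedModel i.unpair) (B k)) ^ 2 ≤
            ∑ i ∈ range k, ((x (codedClass i.unpair) : ℝ) -
              dens (codedModel i.unpair) (B k)) ^ 2 :=
          Finset.single_le_sum (f := fun i => ((x (codedClass i.unpair) : ℝ) -
              dens (codedModel i.unpair) (B k)) ^ 2) (fun _ _ => sq_nonneg _)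
            (Finset.mem_range.mpr hk)
        have e4 := e3.trans (hB k)
        have e5 : (k : ℝ) / 2 ^ k = k * (1 / 2) ^ k := by
          rw [one_div, inv_pow, div_eq_mul_inv]
        rw [e5] at e4
        calc _ = ((x (codedClass i.unpair) : ℝ) - dens (codedModel i.unpair) (B k)) ^ 2 := by ring
          _ ≤ _ := e4
      have e6 : ((((codedModel i.unpair).1 + 1 : ℕ) : ℝ)) ^ 2 / 2 ^ (2 * k + 4 + k) ≤
          ((i.unpair.1 + 1 : ℕ) : ℝ) ^ 2 * (1 / 2) ^ k := by
        have : (codedModel i.unpair).1 = i.unpair.1 := rfl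
        rw [this, div_eq_mul_inv, one_div, inv_pow]
        refine mul_le_mul_of_nonneg_left ?_ (by positivity)
        refine inv_anti₀ (by positivity) ?_
        exact pow_le_pow_right₀ (by norm_num) (by omega)
      calc |density (codedModel i.unpair) (modelOf (B k)) - (x (codedClass i.unpair) : ℝ)|
          ≤ |density (codedModel i.unpair) (modelOf (B k)) - dens (codedModel i.unpair) (B k)| +
            |dens (codedModel i.unpair) (B k) - (x (codedClass i.unpair) : ℝ)| :=
            abs_sub_le _ _ _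
        _ ≤ _ := add_le_add (e1.trans e6) e2
    have hlim : Tendsto (fun k : ℕ => (((i.unpair.1 + 1 : ℕ) : ℝ) ^ 2 * (1 / 2) ^ k +
        Real.sqrt ((k : ℝ) * (1 / 2) ^ k))) atTop (𝓝 0) := by
      have a1 : Tendsto (fun k : ℕ => ((1 : ℝ) / 2) ^ k) atTop (𝓝 0) :=
        tendsto_pow_atTop_nhds_zero_of_lt_one (by norm_num) (by norm_num)
      have a2 : Tendsto (fun k : ℕ => (k : ℝ) * ((1 : ℝ) / 2) ^ k) atTop (𝓝 0) :=
        tendsto_self_mul_const_pow_of_lt_one (by norm_num) (by norm_num)
      have a3 := (Real.continuous_sqrt.tendsto 0).comp a2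
      rw [Real.sqrt_zero] at a3
      have a4 := (a1.const_mul ((((i.unpair.1 + 1 : ℕ) : ℝ)) ^ 2)).add a3
      simpa using a4
    exact squeeze_zero' (Eventually.of_forall fun k => dist_nonneg) hb hlim
  unfold IsLineon
  rw [accPt_iff_frequently]
  rw [frequently_iff]
  intro U hU
  have hev := hconv.eventually hU
  obtain ⟨k0, hk0⟩ := eventually_atTop.mp hev
  have hS : ∀ k, point (B k) ∈ {y | ∃ m : ℕ, 1 ≤ m ∧ ∃ A : Set (Fin m → ZMod 2), y = point A} :=
    fun k => ⟨2 * k + 4 + k, by omega, B k, rfl⟩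
  by_cases hx : point (B k0) = x
  · refine ⟨point (B (k0 + 1)), hk0 (k0 + 1) (by omega), ?_, hS _⟩
    rw [← hx]
    exact (point_ne (by omega) (B k0) (B (k0 + 1))).symm
  · exact ⟨point (B k0), hk0 k0 le_rfl, hx, hS _⟩

/-- lineons are approximated by sets of large dimension -/
theorem exists_large (x : IsoClass → unitInterval) (hx : IsLineon x) (k m0 : ℕ) (ε : ℝ)
    (hε : 0 < ε) : ∃ m : ℕ, m0 < m ∧ ∃ A : Set (Vec m), ∀ i < k,
      |(point A (codedClass i.unpair) : ℝ) - x (codedClass i.unpair)| < ε := by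
  unfold IsLineon at hx
  rw [accPt_iff_frequently] at hx
  let T : Set (IsoClass → unitInterval) := ⋃ m ∈ Set.Iic m0, Set.range (fun A : Set (Vec m) => point A)
  have hT : (T \ {x}).Finite := by
    refine Set.Finite.sdiff ?_
    refine Set.Finite.biUnion (Set.finite_Iic m0) fun m _ => ?_
    exact Set.finite_range _
  have h1 : ∀ᶠ y in 𝓝 x, y ∉ T \ {x} := by
    refine hT.isClosed.isOpen_compl.mem_nhds ?_
    simp
  have h2 : ∀ᶠ y in 𝓝 x, ∀ i ∈ range k,
      |(y (codedClass i.unpair) : ℝ) - x (codedClass i.unpair)| < ε := by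
    rw [Filter.eventually_all_finset]
    intro i _
    have hc : Continuous (fun y : IsoClass → unitInterval => (y (codedClass i.unpair) : ℝ)) :=
      continuous_subtype_val.comp (continuous_apply _)
    have := (Metric.tendsto_nhds.mp (hc.tendsto x)) ε hε
    simpa [Real.dist_eq] using this
  obtain ⟨y, ⟨hy1, hy2⟩, hy3, hy4⟩ := (hx.and_eventually (h1.and h2)).exists
  obtain ⟨m, hm1, A, rfl⟩ := hy2
  refine ⟨m, ?_, A, fun i hi => hy4 i (Finset.mem_range.mpr hi)⟩
  by_contra hm
  push Not at hm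
  refine hy3 ⟨?_, by simpa using hy1⟩
  simp only [T, Set.mem_iUnion]
  exact ⟨m, hm, A, rfl⟩

theorem exists_set_of_isLineon (x : IsoClass → unitInterval) (hx : IsLineon x) (k j : ℕ) :
    ∃ B : Set (Vec (2 * k + 4 + j)),
      ∑ i ∈ range k, ((x (codedClass i.unpair) : ℝ) -
        dens (codedModel i.unpair) B) ^ 2 ≤ k / 2 ^ j := by
  set ε : ℝ := 1 / (4 * 2 ^ j) with hε
  have hεpos : 0 < ε := by positivity
  obtain ⟨m0, hm0⟩ : ∃ m0 : ℕ, ∀ m ≥ m0, (k : ℝ) ^ 2 / 2 ^ m ≤ ε := by
    have h1 : Tendsto (fun m : ℕ => (k : ℝ) ^ 2 * ((1 : ℝ) / 2) ^ m) atTop (𝓝 ((k : ℝ) ^ 2 * 0)) :=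
      (tendsto_pow_atTop_nhds_zero_of_lt_one (by norm_num) (by norm_num)).const_mul _
    rw [mul_zero] at h1
    obtain ⟨m0, h⟩ := eventually_atTop.mp ((tendsto_order.1 h1).2 ε hεpos)
    refine ⟨m0, fun m hm => ?_⟩
    have := (h m hm).le
    rwa [one_div, inv_pow, ← div_eq_mul_inv] at this
  obtain ⟨m, hm, A, hA⟩ := exists_large x hx k m0 ε hεpos
  obtain ⟨B, hB⟩ := sampling (2 * k + 4 + j) k k (fun i : Fin k => codedModel (Nat.unpair i))
    (fun i => by
      change (Nat.unpair i).1 + 1 ≤ k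
      have := Nat.unpair_left_le (i : ℕ)
      have := i.2
      omega) A
  refine ⟨B, ?_⟩
  rw [← Finset.sum_range (fun i => (dens (codedModel (Nat.unpair i)) B -
    dens (codedModel (Nat.unpair i)) A) ^ 2)] at hB
  have h1 : ∀ i ∈ range k, ((x (codedClass i.unpair) : ℝ) - dens (codedModel i.unpair) B) ^ 2 ≤
      3 * ((dens (codedModel (Nat.unpair i)) B - dens (codedModel (Nat.unpair i)) A) ^ 2 +
        ε ^ 2 + ε ^ 2) := by
    intro i hi
    rw [Finset.mem_range] at hi
    have e1 := abs_density_sub_dens (codedModel i.unpair) A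
    have e2 : (((codedModel i.unpair).1 + 1 : ℕ) : ℝ) ^ 2 / 2 ^ m ≤ ε := by
      refine le_trans ?_ (hm0 m hm.le)
      have h5 : ((codedModel i.unpair).1 + 1 : ℕ) ≤ k := by
        change (Nat.unpair i).1 + 1 ≤ k
        have := Nat.unpair_left_le (i : ℕ)
        omega
      have h6 : (((codedModel i.unpair).1 + 1 : ℕ) : ℝ) ≤ k := by exact_mod_cast h5
      gcongr
    have e3 := e1.trans e2
    have e4 := (hA i hi).le
    rw [point_coded] at e4
    rw [abs_le] at e3 e4
    set a := dens (codedModel i.unpair) B - dens (codedModel i.unpair) A with ha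
    set b := density (codedModel i.unpair) (modelOf A) - dens (codedModel i.unpair) A with hb
    set c := density (codedModel i.unpair) (modelOf A) - (x (codedClass i.unpair) : ℝ) with hc
    have e5 : (x (codedClass i.unpair) : ℝ) - dens (codedModel i.unpair) B = b - c - a := by
      rw [ha, hb, hc]; ring
    rw [e5]
    have e6 : b ^ 2 ≤ ε ^ 2 := sq_le_sq' e3.1 e3.2
    have e7 : c ^ 2 ≤ ε ^ 2 := sq_le_sq' e4.1 e4.2
    nlinarith [sq_nonneg (b + c), sq_nonneg (b + a), sq_nonneg (c - a)]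
  refine (Finset.sum_le_sum h1).trans ?_
  rw [← Finset.mul_sum, Finset.sum_add_distrib, Finset.sum_add_distrib]
  simp only [Finset.sum_const, Finset.card_range, nsmul_eq_mul]
  have h2 : (4 : ℝ) ^ k / 2 ^ (2 * k + 4 + j) = 1 / (16 * 2 ^ j) := by
    rw [pow_add, pow_add, pow_mul]
    norm_num
    field_simp
  rw [h2] at hB
  have h3 : ε ^ 2 ≤ 1 / (16 * 2 ^ j) := by
    rw [hε, div_pow, one_pow, mul_pow]
    have h4 : (1 : ℝ) ≤ 2 ^ j := one_le_pow₀ (by norm_num)
    refine one_div_le_one_div_of_le (by positivity) ?_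
    norm_num
    nlinarith
  have h5 : (k : ℝ) / 2 ^ j = 16 * (k * (1 / (16 * 2 ^ j))) := by
    field_simp
  have hk : (0 : ℝ) ≤ k := by positivity
  have h6 : (k : ℝ) * ε ^ 2 ≤ k * (1 / (16 * 2 ^ j)) := mul_le_mul_of_nonneg_left h3 hk
  have h7 : (0 : ℝ) ≤ k * (1 / (16 * 2 ^ j)) := by positivity
  rw [h5]
  linarith

theorem ineq_of_isLineon (x : IsoClass → unitInterval) (hx : IsLineon x) (k j M : ℕ) :
    0 ≤ ev (fam k j M) x := by
  obtain ⟨B, hB⟩ := exists_set_of_isLineon x hx k j
  obtain ⟨b, hb, rfl⟩ := exists_setOf' (2 * k + 4 + j) B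
  rw [ev_fam]
  have h1 : (0 : ℝ) ≤ k - k / 2 ^ j := by
    have : (k : ℝ) / 2 ^ j ≤ k := div_le_self (by positivity) (one_le_pow₀ (by norm_num))
    linarith
  have h2 : ((k : ℝ) - k / 2 ^ j) ^ M ≤ ∑ b ∈ range (2 ^ 2 ^ (2 * k + 4 + j)),
      (k - ∑ i ∈ range k, ((x (codedClass i.unpair) : ℝ) -
        dens (codedModel i.unpair) (setOf' (2 * k + 4 + j) b)) ^ 2) ^ M := by
    refine le_trans ?_ (Finset.single_le_sum (f := fun b => (k - ∑ i ∈ range k,
      ((x (codedClass i.unpair) : ℝ) -
        dens (codedModel i.unpair) (setOf' (2 * k + 4 + j) b)) ^ 2) ^ M)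
      (fun b _ => pow_nonneg (term_nonneg x k _ b) M) (Finset.mem_range.mpr hb))
    refine pow_le_pow_left₀ h1 ?_ M
    linarith
  linarith

/-- **The set of lineons has an explicit description.** -/
theorem explicit_description : Primrec enum ∧ ∀ x : IsoClass → unitInterval,
    IsLineon x ↔ ∀ n, 0 ≤ value (toPoly (enum n)) x := by
  refine ⟨primrec_enum, fun x => ⟨fun hx n => ?_, fun h => ?_⟩⟩
  · rw [value_toPoly]
    exact ineq_of_isLineon x hx _ _ _
  · refine isLineon_of_sets x (exists_set_of_ineq x fun k j M => ?_)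
    have := h (Nat.pair k (Nat.pair j M))
    rw [value_toPoly] at this
    simpa [enum] using this

end Pool.Agent.W220.Lin
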