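import Pool.Agent.W220.LinCode

/-!
# Lineons: the explicit family of polynomials and its computability
-/

set_option autoImplicit false

namespace Pool.Agent.W220.Lin

open Finset

/-! ### Arithmetic of codes of polynomials -/

/-- value of a coefficient code -/
noncomputable def cv (q : ℕ × ℕ × ℕ) : ℝ := ((q.1 : ℝ) - q.2.1) / (q.2.2 + 1)

/-- value of a polynomial code -/
noncomputable def ev (P : PolyCode) (x : IsoClass → unitInterval) : ℝ :=
  (P.map fun t => cv t.1 * (t.2.map fun c => (x (codedClass c) : ℝ)).prod).sum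

theorem value_toPoly (P : PolyCode) (x : IsoClass → unitInterval) :
    value (toPoly P) x = ev P x := by
  unfold value toPoly ev cv
  rw [map_list_sum, List.map_map]
  congr 1
  refine List.map_congr_left fun t _ => ?_
  simp only [Function.comp_apply, map_mul, MvPolynomial.aeval_C, map_list_prod, List.map_map]
  congr 1
  · simp
  · congr 1
    refine List.map_congr_left fun c _ => ?_
    simp

/-- product of coefficient codes -/
def cmul (q r : ℕ × ℕ × ℕ) : ℕ × ℕ × ℕ :=
  (q.1 * r.1 + q.2.1 * r.2.1, q.1 * r.2.1 + q.2.1 * r.1, q.2.2 * r.2.2 + q.2.2 + r.2.2)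

theorem cv_cmul (q r : ℕ × ℕ × ℕ) : cv (cmul q r) = cv q * cv r := by
  unfold cv cmul
  push_cast
  have h1 : (q.2.2 : ℝ) + 1 ≠ 0 := by positivity
  have h2 : (r.2.2 : ℝ) + 1 ≠ 0 := by positivity
  have h3 : (q.2.2 : ℝ) * r.2.2 + q.2.2 + r.2.2 + 1 = (q.2.2 + 1) * (r.2.2 + 1) := by ring
  rw [h3]
  field_simp
  ring

/-- product of polynomial codes -/
def pmul (P Q : PolyCode) : PolyCode :=
  P.flatMap fun t => Q.map fun t' => (cmul t.1 t'.1, t.2 ++ t'.2)

theorem ev_nil (x : IsoClass → unitInterval) : ev [] x = 0 := rfl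

theorem ev_cons (t : (ℕ × ℕ × ℕ) × List (ℕ × ℕ)) (P : PolyCode) (x : IsoClass → unitInterval) :
    ev (t :: P) x = cv t.1 * (t.2.map fun c => (x (codedClass c) : ℝ)).prod + ev P x := by
  simp [ev]

theorem ev_append (P Q : PolyCode) (x : IsoClass → unitInterval) :
    ev (P ++ Q) x = ev P x + ev Q x := by
  simp [ev]

theorem ev_flatMap {β : Type} (l : List β) (f : β → PolyCode) (x : IsoClass → unitInterval) :
    ev (l.flatMap f) x = (l.map fun b => ev (f b) x).sum := by
  induction l with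
  | nil => simp [ev]
  | cons b l ih => rw [List.flatMap_cons, ev_append, ih, List.map_cons, List.sum_cons]

theorem ev_pmul (P Q : PolyCode) (x : IsoClass → unitInterval) :
    ev (pmul P Q) x = ev P x * ev Q x := by
  unfold pmul
  rw [ev_flatMap]
  induction P with
  | nil => simp [ev]
  | cons t P ih =>
    rw [List.map_cons, List.sum_cons, ih, ev_cons, add_mul]
    congr 1
    unfold ev
    rw [List.map_map, ← List.sum_map_mul_left]
    congr 1
    refine List.map_congr_left fun t' _ => ?_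
    simp only [Function.comp_apply, cv_cmul, List.map_append, List.prod_append]
    ring

/-- power of a polynomial code -/
def ppow (P : PolyCode) (n : ℕ) : PolyCode := Nat.rec [((1, 0, 0), [])] (fun _ R => pmul P R) n

theorem ev_one (x : IsoClass → unitInterval) : ev [((1, 0, 0), [])] x = 1 := by
  simp [ev, cv]

theorem ev_ppow (P : PolyCode) (n : ℕ) (x : IsoClass → unitInterval) :
    ev (ppow P n) x = ev P x ^ n := by
  induction n with
  | zero => rw [pow_zero]; exact ev_one x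
  | succ n ih =>
    change ev (pmul P (ppow P n)) x = _
    rw [ev_pmul, ih, pow_succ, mul_comm]

/-- constant polynomial -/
def pconst (q : ℕ × ℕ × ℕ) : PolyCode := [(q, [])]

theorem ev_pconst (q : ℕ × ℕ × ℕ) (x : IsoClass → unitInterval) : ev (pconst q) x = cv q := by
  simp [ev, pconst]

/-- variable -/
def pvar (c : ℕ × ℕ) : PolyCode := [((1, 0, 0), [c])]

theorem ev_pvar (c : ℕ × ℕ) (x : IsoClass → unitInterval) :
    ev (pvar c) x = (x (codedClass c) : ℝ) := by
  simp [ev, pvar, cv]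

/-- negative -/
def pneg (P : PolyCode) : PolyCode := pmul (pconst (0, 1, 0)) P

theorem ev_pneg (P : PolyCode) (x : IsoClass → unitInterval) : ev (pneg P) x = - ev P x := by
  unfold pneg
  rw [ev_pmul, ev_pconst]
  simp [cv]

/-! ### The family -/

/-- `x_c - (num / 2 ^ (N (n+1)))` -/
noncomputable def pdiff (N b i : ℕ) : PolyCode :=
  pvar i.unpair ++ pconst (0, numI N b (i.unpair.1 + 1) i.unpair.2,
    2 ^ (N * (i.unpair.1 + 1)) - 1)

theorem ev_pdiff (N b i : ℕ) (x : IsoClass → unitInterval) :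
    ev (pdiff N b i) x = (x (codedClass i.unpair) : ℝ) -
      dens (codedModel i.unpair) (setOf' N b) := by
  unfold pdiff
  rw [ev_append, ev_pvar, ev_pconst]
  have h := dens_coded N b i.unpair.1 i.unpair.2
  rw [Prod.mk.eta] at h
  rw [h]
  unfold cv
  have h1 : ((2 ^ (N * (i.unpair.1 + 1)) - 1 : ℕ) : ℝ) + 1 =
      ((2 ^ (N * (i.unpair.1 + 1)) : ℕ) : ℝ) := by
    have : 1 ≤ 2 ^ (N * (i.unpair.1 + 1)) := Nat.one_le_two_pow
    rw [Nat.cast_sub this]
    simp
  simp only
  rw [h1]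
  push_cast
  ring

/-- `k - ∑_{i < k} (x_i - p_i)^2` -/
noncomputable def pT (k N b : ℕ) : PolyCode :=
  pconst (k, 0, 0) ++ (List.range k).flatMap fun i => pneg (pmul (pdiff N b i) (pdiff N b i))

theorem list_sum_range (f : ℕ → ℝ) (n : ℕ) :
    ((List.range n).map f).sum = ∑ i ∈ range n, f i := by
  induction n with
  | zero => simp
  | succ n ih =>
    rw [List.range_succ, List.map_append, List.sum_append, ih, Finset.sum_range_succ]
    simp

theorem ev_pT (k N b : ℕ) (x : IsoClass → unitInterval) :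
    ev (pT k N b) x = k - ∑ i ∈ range k, ((x (codedClass i.unpair) : ℝ) -
      dens (codedModel i.unpair) (setOf' N b)) ^ 2 := by
  unfold pT
  rw [ev_append, ev_pconst, ev_flatMap]
  have h : cv (k, 0, 0) = k := by simp [cv]
  rw [h, sub_eq_add_neg, ← Finset.sum_neg_distrib]
  congr 1
  rw [list_sum_range]
  refine Finset.sum_congr rfl fun i _ => ?_
  rw [ev_pneg, ev_pmul, ev_pdiff]
  ring

/-- the polynomial with indices `k, j, M` -/
noncomputable def fam (k j M : ℕ) : PolyCode :=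
  ((List.range (2 ^ 2 ^ (2 * k + 4 + j))).flatMap fun b => ppow (pT k (2 * k + 4 + j) b) M) ++
    pneg (ppow (pconst (k * 2 ^ j, k, 2 ^ j - 1)) M)

theorem ev_fam (k j M : ℕ) (x : IsoClass → unitInterval) :
    ev (fam k j M) x = ∑ b ∈ range (2 ^ 2 ^ (2 * k + 4 + j)),
      (k - ∑ i ∈ range k, ((x (codedClass i.unpair) : ℝ) -
        dens (codedModel i.unpair) (setOf' (2 * k + 4 + j) b)) ^ 2) ^ M
      - (k - k / 2 ^ j) ^ M := by
  unfold fam
  rw [ev_append, ev_flatMap, ev_pneg, ev_ppow, ev_pconst, list_sum_range, ← sub_eq_add_neg]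
  congr 1
  · refine Finset.sum_congr rfl fun b _ => ?_
    rw [ev_ppow, ev_pT]
  · congr 1
    unfold cv
    have h1 : ((2 ^ j - 1 : ℕ) : ℝ) + 1 = 2 ^ j := by
      have : 1 ≤ 2 ^ j := Nat.one_le_two_pow
      rw [Nat.cast_sub this]
      simp
    simp only
    rw [h1]
    push_cast
    field_simp

/-- the enumeration of the family -/
noncomputable def enum (n : ℕ) : PolyCode := fam n.unpair.1 n.unpair.2.unpair.1 n.unpair.2.unpair.2

/-! ### Computability -/

section Prim

variable {α : Type} [Primcodable α]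

theorem pr_pow {f g : α → ℕ} (hf : Primrec f) (hg : Primrec g) :
    Primrec (fun a => f a ^ g a) :=
  (Primrec₂.unpaired'.1 Nat.Primrec.pow).comp hf hg

theorem pr_two_pow {g : α → ℕ} (hg : Primrec g) : Primrec (fun a => 2 ^ g a) :=
  pr_pow (Primrec.const 2) hg

theorem pr_add {f g : α → ℕ} (hf : Primrec f) (hg : Primrec g) : Primrec (fun a => f a + g a) :=
  Primrec.nat_add.comp hf hg

theorem pr_mul {f g : α → ℕ} (hf : Primrec f) (hg : Primrec g) : Primrec (fun a => f a * g a) :=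
  Primrec.nat_mul.comp hf hg

theorem pr_sub {f g : α → ℕ} (hf : Primrec f) (hg : Primrec g) : Primrec (fun a => f a - g a) :=
  Primrec.nat_sub.comp hf hg

theorem pr_mod {f g : α → ℕ} (hf : Primrec f) (hg : Primrec g) : Primrec (fun a => f a % g a) :=
  Primrec.nat_mod.comp hf hg

theorem pr_div {f g : α → ℕ} (hf : Primrec f) (hg : Primrec g) : Primrec (fun a => f a / g a) :=
  Primrec.nat_div.comp hf hg

theorem pr_bit {f g : α → ℕ} (hf : Primrec f) (hg : Primrec g) :
    Primrec (fun a => bit (f a) (g a)) :=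
  pr_mod (pr_div hf (pr_two_pow hg)) (Primrec.const 2)

theorem pr_sum {f : α → ℕ} {g : α → ℕ → ℕ} (hf : Primrec f) (hg : Primrec₂ g) :
    Primrec (fun a => ∑ i ∈ range (f a), g a i) := by
  have h : Primrec (fun a => Nat.rec (motive := fun _ => ℕ) 0
      (fun n ih => ih + g a n) (f a)) := by
    refine Primrec.nat_rec' (h := fun a p => p.2 + g a p.1) hf (Primrec.const 0) ?_
    exact (Primrec.nat_add.comp (Primrec.snd.comp Primrec.snd)
      (hg.comp Primrec.fst (Primrec.fst.comp Primrec.snd)))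
  refine h.of_eq fun a => ?_
  generalize f a = n
  induction n with
  | zero => simp
  | succ n ih => rw [Finset.sum_range_succ, ← ih]

theorem pr_digs {n : α → ℕ} {f : α → ℕ → ℕ} (hn : Primrec n) (hf : Primrec₂ f) :
    Primrec (fun a => digs (n a) (f a)) := by
  unfold digs
  exact pr_sum hn (pr_mul (pr_two_pow Primrec.snd) (pr_mod hf (Primrec.const 2)))

theorem pr_selfm {n σ i : α → ℕ} (hn : Primrec n) (hσ : Primrec σ) (hi : Primrec i) :
    Primrec (fun a => selfm (n a) (σ a) (i a)) :=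
  pr_mod (pr_div hσ (pr_pow hn hi)) hn

theorem pr_vsum {N n t σ J : α → ℕ} (hN : Primrec N) (hn : Primrec n) (ht : Primrec t)
    (hσ : Primrec σ) (hJ : Primrec J) :
    Primrec (fun a => vsum (N a) (n a) (t a) (σ a) (J a)) := by
  unfold vsum
  refine pr_digs hN ?_
  have f1 : Primrec (fun p : (α × ℕ) × ℕ => p.1.1) := Primrec.fst.comp Primrec.fst
  have f2 : Primrec (fun p : (α × ℕ) × ℕ => p.1.2) := Primrec.snd.comp Primrec.fst
  have f3 : Primrec (fun p : (α × ℕ) × ℕ => p.2) := Primrec.snd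
  refine pr_sum (α := α × ℕ) (hn.comp Primrec.fst)
    (g := fun p i => bit (J p.1) i * bit (t p.1) (N p.1 * selfm (n p.1) (σ p.1) i + p.2)) ?_
  exact pr_mul (pr_bit (hJ.comp f1) f3) (pr_bit (ht.comp f1)
    (pr_add (pr_mul (hN.comp f1) (pr_selfm (hn.comp f1) (hσ.comp f1) f3)) f2))

theorem pp_exists {f : α → ℕ} {Q : ℕ → α → Prop} (hf : Primrec f) (hQ : PrimrecRel Q) :
    PrimrecPred (fun a => ∃ x < f a, Q x a) :=
  (PrimrecRel.comp (R := fun (L : List ℕ) a => ∃ x ∈ L, Q x a) (f := fun a => List.range (f a))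
    (g := fun a => a) (PrimrecRel.exists_mem_list hQ) (Primrec.list_range.comp hf)
    Primrec.id).of_eq fun a => by simp

theorem pp_forall {f : α → ℕ} {Q : ℕ → α → Prop} (hf : Primrec f) (hQ : PrimrecRel Q) :
    PrimrecPred (fun a => ∀ x < f a, Q x a) :=
  (PrimrecRel.comp (R := fun (L : List ℕ) a => ∀ x ∈ L, Q x a) (f := fun a => List.range (f a))
    (g := fun a => a) (PrimrecRel.forall_mem_list hQ) (Primrec.list_range.comp hf)
    Primrec.id).of_eq fun a => by simp

theorem pp_imp {p q : α → Prop} (hp : PrimrecPred p) (hq : PrimrecPred q) :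
    PrimrecPred (fun a => p a → q a) :=
  (hp.not.or hq).of_eq fun _ => imp_iff_not_or.symm

theorem pp_eq {f g : α → ℕ} (hf : Primrec f) (hg : Primrec g) :
    PrimrecPred (fun a => f a = g a) := Primrec.eq.comp hf hg

theorem pp_isoP {N b n e t : α → ℕ} (hN : Primrec N) (hb : Primrec b) (hn : Primrec n)
    (he : Primrec e) (ht : Primrec t) :
    PrimrecPred (fun a => IsoP (N a) (b a) (n a) (e a) (t a)) := by
  unfold IsoP
  refine pp_exists (pr_pow hn hn) ?_
  refine PrimrecPred.primrecRel (α := ℕ) (β := α) (p := fun q =>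
    (∀ i < n q.2, ∀ j < n q.2, selfm (n q.2) q.1 i = selfm (n q.2) q.1 j → i = j) ∧
    ∀ J < 2 ^ n q.2, J ≠ 0 → (bit (e q.2) J = 1 ↔
      bit (b q.2) (vsum (N q.2) (n q.2) (t q.2) q.1 J) = 1)) ?_
  have s2 : Primrec (fun q : ℕ × α => q.2) := Primrec.snd
  refine PrimrecPred.and ?_ ?_
  · refine pp_forall (hn.comp s2) ?_
    refine PrimrecPred.primrecRel (α := ℕ) (β := ℕ × α) (p := fun q =>
      ∀ j < n q.2.2, selfm (n q.2.2) q.2.1 q.1 = selfm (n q.2.2) q.2.1 j → q.1 = j) ?_
    have s3 : Primrec (fun q : ℕ × ℕ × α => q.2.2) := Primrec.snd.comp Primrec.snd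
    refine pp_forall (hn.comp s3) ?_
    refine PrimrecPred.primrecRel (α := ℕ) (β := ℕ × ℕ × α) (p := fun q =>
      selfm (n q.2.2.2) q.2.2.1 q.2.1 = selfm (n q.2.2.2) q.2.2.1 q.1 → q.2.1 = q.1) ?_
    have t1 : Primrec (fun q : ℕ × ℕ × ℕ × α => q.1) := Primrec.fst
    have t2 : Primrec (fun q : ℕ × ℕ × ℕ × α => q.2.1) := Primrec.fst.comp Primrec.snd
    have t3 : Primrec (fun q : ℕ × ℕ × ℕ × α => q.2.2.1) :=
      Primrec.fst.comp (Primrec.snd.comp Primrec.snd)
    have t4 : Primrec (fun q : ℕ × ℕ × ℕ × α => q.2.2.2) :=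
      Primrec.snd.comp (Primrec.snd.comp Primrec.snd)
    exact pp_imp (pp_eq (pr_selfm (hn.comp t4) t3 t2) (pr_selfm (hn.comp t4) t3 t1))
      (pp_eq t2 t1)
  · refine pp_forall (pr_two_pow (hn.comp s2)) ?_
    refine PrimrecPred.primrecRel (α := ℕ) (β := ℕ × α) (p := fun q =>
      q.1 ≠ 0 → (bit (e q.2.2) q.1 = 1 ↔
      bit (b q.2.2) (vsum (N q.2.2) (n q.2.2) (t q.2.2) q.2.1 q.1) = 1)) ?_
    have t1 : Primrec (fun q : ℕ × ℕ × α => q.1) := Primrec.fst
    have t2 : Primrec (fun q : ℕ × ℕ × α => q.2.1) := Primrec.fst.comp Primrec.snd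
    have t3 : Primrec (fun q : ℕ × ℕ × α => q.2.2) := Primrec.snd.comp Primrec.snd
    have h1 : PrimrecPred (fun q : ℕ × ℕ × α => q.1 ≠ 0) :=
      (pp_eq t1 (Primrec.const 0)).not
    have h2 : PrimrecPred (fun q : ℕ × ℕ × α => bit (e q.2.2) q.1 =
      bit (b q.2.2) (vsum (N q.2.2) (n q.2.2) (t q.2.2) q.2.1 q.1)) :=
      pp_eq (pr_bit (he.comp t3) t1) (pr_bit (hb.comp t3)
        (pr_vsum (hN.comp t3) (hn.comp t3) (ht.comp t3) t2 t1))
    refine (pp_imp h1 h2).of_eq fun q => ?_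
    refine imp_congr_right fun _ => ?_
    have h3 := bit_lt (e q.2.2) q.1
    have h4 := bit_lt (b q.2.2) (vsum (N q.2.2) (n q.2.2) (t q.2.2) q.2.1 q.1)
    omega

theorem pr_numI {N b n e : α → ℕ} (hN : Primrec N) (hb : Primrec b) (hn : Primrec n)
    (he : Primrec e) : Primrec (fun a => numI (N a) (b a) (n a) (e a)) := by
  classical
  unfold numI
  refine pr_sum (pr_two_pow (pr_mul hN hn)) ?_
  exact Primrec.ite (pp_isoP (hN.comp Primrec.fst) (hb.comp Primrec.fst) (hn.comp Primrec.fst)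
    (he.comp Primrec.fst) Primrec.snd) (Primrec.const 1) (Primrec.const 0)

theorem pr_cmul : Primrec₂ cmul := by
  unfold cmul
  have a1 : Primrec (fun p : (ℕ × ℕ × ℕ) × (ℕ × ℕ × ℕ) => p.1.1) := Primrec.fst.comp Primrec.fst
  have a2 : Primrec (fun p : (ℕ × ℕ × ℕ) × (ℕ × ℕ × ℕ) => p.1.2.1) :=
    Primrec.fst.comp (Primrec.snd.comp Primrec.fst)
  have a3 : Primrec (fun p : (ℕ × ℕ × ℕ) × (ℕ × ℕ × ℕ) => p.1.2.2) :=
    Primrec.snd.comp (Primrec.snd.comp Primrec.fst)
  have b1 : Primrec (fun p : (ℕ × ℕ × ℕ) × (ℕ × ℕ × ℕ) => p.2.1) := Primrec.fst.comp Primrec.snd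
  have b2 : Primrec (fun p : (ℕ × ℕ × ℕ) × (ℕ × ℕ × ℕ) => p.2.2.1) :=
    Primrec.fst.comp (Primrec.snd.comp Primrec.snd)
  have b3 : Primrec (fun p : (ℕ × ℕ × ℕ) × (ℕ × ℕ × ℕ) => p.2.2.2) :=
    Primrec.snd.comp (Primrec.snd.comp Primrec.snd)
  exact Primrec.pair (pr_add (pr_mul a1 b1) (pr_mul a2 b2))
    (Primrec.pair (pr_add (pr_mul a1 b2) (pr_mul a2 b1))
      (pr_add (pr_add (pr_mul a3 b3) a3) b3))

theorem pr_pmul : Primrec₂ pmul := by
  unfold pmul
  refine Primrec.list_flatMap (α := PolyCode × PolyCode) Primrec.fst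
    (g := fun p t => p.2.map fun t' => (cmul t.1 t'.1, t.2 ++ t'.2)) ?_
  refine Primrec.list_map (α := (PolyCode × PolyCode) × ((ℕ × ℕ × ℕ) × List (ℕ × ℕ)))
    (Primrec.snd.comp Primrec.fst)
    (g := fun p t' => (cmul p.2.1 t'.1, p.2.2 ++ t'.2)) ?_
  have c1 : Primrec (fun p : ((PolyCode × PolyCode) × ((ℕ × ℕ × ℕ) × List (ℕ × ℕ))) ×
      ((ℕ × ℕ × ℕ) × List (ℕ × ℕ)) => p.1.2.1) :=
    Primrec.fst.comp (Primrec.snd.comp Primrec.fst)
  have c2 : Primrec (fun p : ((PolyCode × PolyCode) × ((ℕ × ℕ × ℕ) × List (ℕ × ℕ))) ×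
      ((ℕ × ℕ × ℕ) × List (ℕ × ℕ)) => p.1.2.2) :=
    Primrec.snd.comp (Primrec.snd.comp Primrec.fst)
  have c3 : Primrec (fun p : ((PolyCode × PolyCode) × ((ℕ × ℕ × ℕ) × List (ℕ × ℕ))) ×
      ((ℕ × ℕ × ℕ) × List (ℕ × ℕ)) => p.2.1) := Primrec.fst.comp Primrec.snd
  have c4 : Primrec (fun p : ((PolyCode × PolyCode) × ((ℕ × ℕ × ℕ) × List (ℕ × ℕ))) ×
      ((ℕ × ℕ × ℕ) × List (ℕ × ℕ)) => p.2.2) := Primrec.snd.comp Primrec.snd
  exact Primrec.pair (pr_cmul.comp c1 c3) (Primrec.list_append.comp c2 c4)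

theorem pr_ppow {P : α → PolyCode} {n : α → ℕ} (hP : Primrec P) (hn : Primrec n) :
    Primrec (fun a => ppow (P a) (n a)) := by
  unfold ppow
  refine Primrec.nat_rec' (h := fun a p => pmul (P a) p.2) hn (Primrec.const _) ?_
  exact pr_pmul.comp (hP.comp Primrec.fst) (Primrec.snd.comp Primrec.snd)

theorem pr_pconst {q : α → ℕ × ℕ × ℕ} (hq : Primrec q) : Primrec (fun a => pconst (q a)) :=
  Primrec.list_cons.comp (Primrec.pair hq (Primrec.const [])) (Primrec.const [])

theorem pr_pvar {c : α → ℕ × ℕ} (hc : Primrec c) : Primrec (fun a => pvar (c a)) :=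
  Primrec.list_cons.comp (Primrec.pair (Primrec.const (1, 0, 0))
    (Primrec.list_cons.comp hc (Primrec.const []))) (Primrec.const [])

theorem pr_pneg {P : α → PolyCode} (hP : Primrec P) : Primrec (fun a => pneg (P a)) :=
  pr_pmul.comp (Primrec.const _) hP

theorem pr_pdiff {N b i : α → ℕ} (hN : Primrec N) (hb : Primrec b) (hi : Primrec i) :
    Primrec (fun a => pdiff (N a) (b a) (i a)) := by
  unfold pdiff
  have u : Primrec (fun a => (i a).unpair) := Primrec.unpair.comp hi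
  have u1 : Primrec (fun a => (i a).unpair.1 + 1) := pr_add (Primrec.fst.comp u) (Primrec.const 1)
  have u2 : Primrec (fun a => (i a).unpair.2) := Primrec.snd.comp u
  exact Primrec.list_append.comp (pr_pvar u) (pr_pconst (Primrec.pair (Primrec.const 0)
    (Primrec.pair (pr_numI hN hb u1 u2) (pr_sub (pr_two_pow (pr_mul hN u1)) (Primrec.const 1)))))

theorem pr_pT {k N b : α → ℕ} (hk : Primrec k) (hN : Primrec N) (hb : Primrec b) :
    Primrec (fun a => pT (k a) (N a) (b a)) := by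
  unfold pT
  refine Primrec.list_append.comp (pr_pconst (Primrec.pair hk (Primrec.const (0, 0)))) ?_
  refine Primrec.list_flatMap (Primrec.list_range.comp hk) ?_
  have h : Primrec (fun p : α × ℕ => pdiff (N p.1) (b p.1) p.2) :=
    pr_pdiff (hN.comp Primrec.fst) (hb.comp Primrec.fst) Primrec.snd
  exact pr_pneg (pr_pmul.comp h h)

theorem pr_fam {k j M : α → ℕ} (hk : Primrec k) (hj : Primrec j) (hM : Primrec M) :
    Primrec (fun a => fam (k a) (j a) (M a)) := by
  unfold fam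
  have hN : Primrec (fun a => 2 * k a + 4 + j a) :=
    pr_add (pr_add (pr_mul (Primrec.const 2) hk) (Primrec.const 4)) hj
  refine Primrec.list_append.comp ?_ ?_
  · refine Primrec.list_flatMap (Primrec.list_range.comp (pr_two_pow (pr_two_pow hN))) ?_
    exact pr_ppow (pr_pT (hk.comp Primrec.fst) (hN.comp Primrec.fst) Primrec.snd)
      (hM.comp Primrec.fst)
  · exact pr_pneg (pr_ppow (pr_pconst (Primrec.pair (pr_mul hk (pr_two_pow hj))
      (Primrec.pair hk (pr_sub (pr_two_pow hj) (Primrec.const 1))))) hM)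

end Prim

/-- The enumeration of the family is primitive recursive. -/
theorem primrec_enum : Primrec enum := by
  unfold enum
  have u1 : Primrec (fun n : ℕ => n.unpair.1) := Primrec.fst.comp Primrec.unpair
  have u2 : Primrec (fun n : ℕ => n.unpair.2) := Primrec.snd.comp Primrec.unpair
  have u3 : Primrec (fun n : ℕ => n.unpair.2.unpair.1) :=
    Primrec.fst.comp (Primrec.unpair.comp u2)
  have u4 : Primrec (fun n : ℕ => n.unpair.2.unpair.2) :=
    Primrec.snd.comp (Primrec.unpair.comp u2)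
  exact pr_fam u1 u3 u4

end Pool.Agent.W220.Lin
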