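import Pool.Agent.W220.LinDefs

/-!
# Lineons: sampling

For a subset `A` of `F_2^m` and a random linear map `F_2^N → F_2^m` the sampling densities of the
preimage of `A` are concentrated around those of `A`.
-/

set_option autoImplicit false

namespace Pool.Agent.W220.Lin

open Finset

/-- the vector space `F_2^m` -/
abbrev Vec (m : ℕ) : Type := Fin m → ZMod 2

theorem card_vec (m : ℕ) : Fintype.card (Vec m) = 2 ^ m := by
  simp [Vec]

/-- fibres of a surjective homomorphism of finite groups all have the same size -/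
theorem card_fiber_mul {G H : Type*} [AddCommGroup G] [Fintype G] [AddCommGroup H] [Fintype H]
    [DecidableEq H] (f : G →+ H) (hf : Function.Surjective f) (h : H) :
    (univ.filter (fun k : G => f k = h)).card * Fintype.card H = Fintype.card G := by
  classical
  have hconst : ∀ h : H, (univ.filter (fun k : G => f k = h)).card =
      (univ.filter (fun k : G => f k = 0)).card := by
    intro g
    obtain ⟨k0, hk0⟩ := hf g
    refine Finset.card_bij (fun k _ => k - k0) ?_ ?_ ?_
    · intro k hk
      simp only [Finset.mem_filter, Finset.mem_univ, true_and] at hk ⊢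
      rw [map_sub, hk, hk0, sub_self]
    · intro a _ b _ hab
      exact sub_left_injective hab
    · intro b hb
      refine ⟨b + k0, ?_, by simp⟩
      simp only [Finset.mem_filter, Finset.mem_univ, true_and] at hb ⊢
      rw [map_add, hb, hk0, zero_add]
  have hsum : Fintype.card G = ∑ g : H, (univ.filter (fun k : G => f k = g)).card := by
    rw [← Finset.card_univ, Finset.card_eq_sum_card_fiberwise (f := f) (t := univ)]
    intro x _; simp
  rw [hsum, Finset.sum_congr rfl (fun g _ => hconst g), Finset.sum_const, Finset.card_univ,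
    smul_eq_mul, hconst h, mul_comm]

/-- sums along a surjective homomorphism of finite groups -/
theorem sum_comp_surj {G H : Type*} [AddCommGroup G] [Fintype G] [AddCommGroup H] [Fintype H]
    (f : G →+ H) (hf : Function.Surjective f) (F : H → ℝ) :
    (∑ g : G, F (f g)) * Fintype.card H = Fintype.card G * ∑ h : H, F h := by
  classical
  have h1 : ∑ g : G, F (f g) = ∑ h : H, ((univ.filter (fun k : G => f k = h)).card : ℝ) * F h := by
    rw [← Finset.sum_fiberwise univ f (fun g => F (f g))]
    refine Finset.sum_congr rfl fun h _ => ?_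
    rw [Finset.sum_congr rfl (g := fun _ => F h)]
    · simp
    · intro x hx
      simp only [Finset.mem_filter, Finset.mem_univ, true_and] at hx
      rw [hx]
  rw [h1, Finset.sum_mul, Finset.mul_sum]
  refine Finset.sum_congr rfl fun h _ => ?_
  have h2 := card_fiber_mul f hf h
  have h3 : ((univ.filter (fun k : G => f k = h)).card : ℝ) * Fintype.card H
      = Fintype.card G := by exact_mod_cast h2
  rw [← h3]; ring

/-- the number of linearly dependent families -/
theorem card_dep {ι : Type} [Fintype ι] [DecidableEq ι] (N : ℕ) [DecidablePred fun g : ι → Vec N =>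
      ¬ LinearIndependent (ZMod 2) g] :
    (univ.filter (fun g : ι → Vec N => ¬ LinearIndependent (ZMod 2) g)).card * 2 ^ N
      ≤ 2 ^ Fintype.card ι * Fintype.card (ι → Vec N) := by
  classical
  have hsub : (univ.filter (fun g : ι → Vec N => ¬ LinearIndependent (ZMod 2) g)) ⊆
      (univ.filter (fun c : ι → ZMod 2 => ∃ i, c i ≠ 0)).biUnion
        (fun c => univ.filter (fun g : ι → Vec N => ∑ i, c i • g i = 0)) := by
    intro g hg
    simp only [Finset.mem_filter, Finset.mem_univ, true_and] at hg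
    rw [Fintype.not_linearIndependent_iff] at hg
    obtain ⟨c, hc, hi⟩ := hg
    simp only [Finset.mem_biUnion, Finset.mem_filter, Finset.mem_univ, true_and]
    exact ⟨c, hi, hc⟩
  have hone : ∀ c : ι → ZMod 2, (∃ i, c i ≠ 0) →
      (univ.filter (fun g : ι → Vec N => ∑ i, c i • g i = 0)).card * 2 ^ N
        = Fintype.card (ι → Vec N) := by
    rintro c ⟨i, hi⟩
    let f : (ι → Vec N) →+ Vec N :=
      { toFun := fun g => ∑ i, c i • g i
        map_zero' := by simp
        map_add' := fun a b => by simp [smul_add, Finset.sum_add_distrib] }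
    have hf : Function.Surjective f := by
      intro y
      refine ⟨Pi.single i y, ?_⟩
      have h1 : c i = 1 := by
        revert hi; generalize c i = z; revert z; decide
      change ∑ j, c j • (Pi.single i y : ι → Vec N) j = y
      rw [Finset.sum_eq_single i]
      · rw [h1, Pi.single_eq_same, one_smul]
      · intro j _ hj
        rw [Pi.single_eq_of_ne hj, smul_zero]
      · intro h; exact absurd (Finset.mem_univ i) h
    have := card_fiber_mul f hf 0
    rw [card_vec] at this
    exact this
  calc (univ.filter (fun g : ι → Vec N => ¬ LinearIndependent (ZMod 2) g)).card * 2 ^ N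
      ≤ ((univ.filter (fun c : ι → ZMod 2 => ∃ i, c i ≠ 0)).biUnion
        (fun c => univ.filter (fun g : ι → Vec N => ∑ i, c i • g i = 0))).card * 2 ^ N :=
        Nat.mul_le_mul_right _ (Finset.card_le_card hsub)
    _ ≤ (∑ c ∈ univ.filter (fun c : ι → ZMod 2 => ∃ i, c i ≠ 0),
          (univ.filter (fun g : ι → Vec N => ∑ i, c i • g i = 0)).card) * 2 ^ N :=
        Nat.mul_le_mul_right _ Finset.card_biUnion_le
    _ = ∑ c ∈ univ.filter (fun c : ι → ZMod 2 => ∃ i, c i ≠ 0), Fintype.card (ι → Vec N) := by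
        rw [Finset.sum_mul]
        refine Finset.sum_congr rfl fun c hc => hone c ?_
        simpa using hc
    _ ≤ ∑ c : ι → ZMod 2, Fintype.card (ι → Vec N) :=
        Finset.sum_le_sum_of_subset (Finset.filter_subset _ _)
    _ = 2 ^ Fintype.card ι * Fintype.card (ι → Vec N) := by
        rw [Finset.sum_const, Finset.card_univ, smul_eq_mul]
        congr 1
        simp

/-- the linear map `F_2^N → F_2^m` with prescribed values on the standard basis -/
def hat {N m : ℕ} (φ : Fin N → Vec m) : Vec N →+ Vec m where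
  toFun s := ∑ j, s j • φ j
  map_zero' := by simp
  map_add' a b := by simp [add_smul, Finset.sum_add_distrib]

theorem hat_apply {N m : ℕ} (φ : Fin N → Vec m) (s : Vec N) : hat φ s = ∑ j, s j • φ j := rfl

/-- evaluation of random linear maps at a linearly independent family is onto -/
theorem hat_surj {N m : ℕ} {ι : Type} (g : ι → Vec N) (hg : LinearIndependent (ZMod 2) g)
    (u : ι → Vec m) : ∃ φ : Fin N → Vec m, ∀ i, hat φ (g i) = u i := by
  have hker : LinearMap.ker (Finsupp.linearCombination (ZMod 2) g) = ⊥ :=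
    linearIndependent_iff_ker.mp hg
  obtain ⟨r, hr⟩ := LinearMap.exists_leftInverse_of_injective _ hker
  let f : Vec N →ₗ[ZMod 2] Vec m := (Finsupp.linearCombination (ZMod 2) u).comp r
  have hf : ∀ i, f (g i) = u i := by
    intro i
    have h1 : r (g i) = Finsupp.single i 1 := by
      have := LinearMap.congr_fun hr (Finsupp.single i 1)
      simpa using this
    simp [f, h1]
  refine ⟨fun j => f (Pi.single j 1), fun i => ?_⟩
  rw [← hf i, hat_apply]
  conv_rhs => rw [← Finset.univ_sum_single (g i)]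
  rw [map_sum]
  refine Finset.sum_congr rfl fun j _ => ?_
  rw [← map_smul]
  congr 1
  ext l
  by_cases hl : l = j
  · subst hl; simp
  · simp [Pi.single_eq_of_ne hl]

/-- the model on `Fin (n+1)` given by a tuple `w` of (not necessarily distinct) elements of
`F_2^m` -/
def tau {m n : ℕ} (A : Set (Vec m)) (w : Fin (n + 1) → Vec m) : LModel (Fin (n + 1)) where
  E _ v := Function.Injective v ∧ ∑ i, w (v i) ∈ A
  symm k v σ h := ⟨h.1.comp σ.injective, by
    have : ∑ i, w ((v ∘ σ) i) = ∑ i, w (v i) := Equiv.sum_comp σ (fun i => w (v i))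
    rw [this]; exact h.2⟩
  inj _ _ h := h.1

/-- the pull-back of `A` along a linear map -/
def pull {N m : ℕ} (A : Set (Vec m)) (φ : Fin N → Vec m) : Set (Vec N) := {s | hat φ s ∈ A}

theorem tau_pull {N m n : ℕ} (A : Set (Vec m)) (φ : Fin N → Vec m) (w : Fin (n + 1) → Vec N) :
    tau (pull A φ) w = tau A (fun i => hat φ (w i)) := by
  unfold tau pull
  congr 1
  funext k v
  simp only [Set.mem_ofPred_eq, map_sum]

open Classical in
/-- the density of `M` in tuples of not necessarily distinct elements -/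
noncomputable def dens {m : ℕ} (M : FinLModel) (A : Set (Vec m)) : ℝ :=
  (univ.filter (fun w : Fin (M.1 + 1) → Vec m => M.2.Iso (tau A w))).card /
    Fintype.card (Fin (M.1 + 1) → Vec m)

open Classical in
/-- centred indicator -/
noncomputable def cen {m : ℕ} (M : FinLModel) (A : Set (Vec m))
    (w : Fin (M.1 + 1) → Vec m) : ℝ :=
  (if M.2.Iso (tau A w) then 1 else 0) - dens M A

theorem dens_mem {m : ℕ} (M : FinLModel) (A : Set (Vec m)) : dens M A ∈ Set.Icc (0 : ℝ) 1 := by
  classical
  unfold dens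
  refine ⟨by positivity, div_le_one_of_le₀ ?_ (by positivity)⟩
  exact_mod_cast Finset.card_filter_le _ _

theorem card_pos' {m s : ℕ} : (0 : ℝ) < Fintype.card (Fin s → Vec m) := by
  exact_mod_cast Fintype.card_pos

theorem sum_cen {m : ℕ} (M : FinLModel) (A : Set (Vec m)) : ∑ w, cen M A w = 0 := by
  classical
  have h := card_pos' (m := m) (s := M.1 + 1)
  unfold cen
  rw [Finset.sum_sub_distrib, Finset.sum_boole, Finset.sum_const, Finset.card_univ, nsmul_eq_mul]
  unfold dens
  field_simp
  simp

theorem abs_cen_le {m : ℕ} (M : FinLModel) (A : Set (Vec m)) (w : Fin (M.1 + 1) → Vec m) :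
    |cen M A w| ≤ 1 := by
  have h := dens_mem M A
  unfold cen
  split_ifs
  · rw [abs_le]; constructor <;> linarith [h.1, h.2]
  · rw [abs_le]; constructor <;> linarith [h.1, h.2]

theorem dens_pull_sub {N m : ℕ} (M : FinLModel) (A : Set (Vec m)) (φ : Fin N → Vec m) :
    dens M (pull A φ) - dens M A =
      (∑ w : Fin (M.1 + 1) → Vec N, cen M A (fun i => hat φ (w i))) /
        Fintype.card (Fin (M.1 + 1) → Vec N) := by
  classical
  have h := card_pos' (m := N) (s := M.1 + 1)
  unfold cen
  rw [Finset.sum_sub_distrib, Finset.sum_boole, Finset.sum_const, Finset.card_univ, nsmul_eq_mul,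
    sub_div, mul_div_assoc, mul_comm (Fintype.card _ : ℝ), div_mul_cancel₀ _ h.ne']
  congr 1
  conv_lhs => unfold dens
  simp only [tau_pull]

theorem sum_pair_indep {N m n : ℕ} (F : (Fin (n + 1) → Vec m) → ℝ) (hF : ∑ u, F u = 0)
    (w w' : Fin (n + 1) → Vec N) (h : LinearIndependent (ZMod 2) (Sum.elim w w')) :
    ∑ φ : Fin N → Vec m, F (fun i => hat φ (w i)) * F (fun i => hat φ (w' i)) = 0 := by
  classical
  let f : (Fin N → Vec m) →+ (Fin (n + 1) ⊕ Fin (n + 1) → Vec m) :=
    { toFun := fun φ i => hat φ (Sum.elim w w' i)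
      map_zero' := by
        funext i
        simp [hat_apply]
      map_add' := fun a b => by
        funext i
        simp [hat_apply, smul_add, Finset.sum_add_distrib] }
  have hf : Function.Surjective f := by
    intro u
    obtain ⟨φ, hφ⟩ := hat_surj (Sum.elim w w') h u
    exact ⟨φ, funext hφ⟩
  have h1 := sum_comp_surj f hf (fun u => F (fun i => u (Sum.inl i)) * F (fun i => u (Sum.inr i)))
  have h2 : ∑ u : (Fin (n + 1) ⊕ Fin (n + 1) → Vec m),
      F (fun i => u (Sum.inl i)) * F (fun i => u (Sum.inr i)) = 0 := by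
    rw [← Equiv.sum_comp (Equiv.sumArrowEquivProdArrow (Fin (n + 1)) (Fin (n + 1)) (Vec m)).symm]
    rw [Fintype.sum_prod_type]
    have : ∀ (x y : Fin (n + 1) → Vec m),
        F (fun i => ((Equiv.sumArrowEquivProdArrow (Fin (n + 1)) (Fin (n + 1)) (Vec m)).symm
          (x, y)) (Sum.inl i)) *
        F (fun i => ((Equiv.sumArrowEquivProdArrow (Fin (n + 1)) (Fin (n + 1)) (Vec m)).symm
          (x, y)) (Sum.inr i)) = F x * F y := by
      intro x y; rfl
    simp only [this]
    rw [← Finset.sum_mul_sum, hF, zero_mul]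
  rw [h2, mul_zero] at h1
  have h3 : (Fintype.card (Fin (n + 1) ⊕ Fin (n + 1) → Vec m) : ℝ) ≠ 0 := by
    exact_mod_cast Fintype.card_ne_zero
  exact (mul_eq_zero.mp h1).resolve_right h3

/-- the second moment bound -/
theorem second_moment {m : ℕ} (N : ℕ) (M : FinLModel) (A : Set (Vec m)) :
    ∑ φ : Fin N → Vec m, (dens M (pull A φ) - dens M A) ^ 2 ≤
      Fintype.card (Fin N → Vec m) * (4 ^ (M.1 + 1) / 2 ^ N) := by
  classical
  set K : ℝ := ((Fintype.card (Fin (M.1 + 1) → Vec N) : ℕ) : ℝ) with hK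
  have hKpos : 0 < K := card_pos' (m := N) (s := M.1 + 1)
  set F := cen M A with hF
  have e1 : ∀ φ : Fin N → Vec m, (dens M (pull A φ) - dens M A) ^ 2 =
      (∑ w : Fin (M.1 + 1) → Vec N, ∑ w' : Fin (M.1 + 1) → Vec N,
        F (fun i => hat φ (w i)) * F (fun i => hat φ (w' i))) / K ^ 2 := by
    intro φ
    rw [dens_pull_sub, div_pow, sq (∑ w, _), Finset.sum_mul_sum]
  simp only [e1]
  rw [← Finset.sum_div, Finset.sum_comm]
  have e2 : ∀ w : Fin (M.1 + 1) → Vec N,
      ∑ φ : Fin N → Vec m, ∑ w' : Fin (M.1 + 1) → Vec N,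
        F (fun i => hat φ (w i)) * F (fun i => hat φ (w' i)) ≤
      ∑ w' : Fin (M.1 + 1) → Vec N, (if LinearIndependent (ZMod 2) (Sum.elim w w') then 0 else
        (Fintype.card (Fin N → Vec m) : ℝ)) := by
    intro w
    rw [Finset.sum_comm]
    refine Finset.sum_le_sum fun w' _ => ?_
    split_ifs with hli
    · exact (sum_pair_indep F (sum_cen M A) w w' hli).le
    · calc ∑ φ : Fin N → Vec m, F (fun i => hat φ (w i)) * F (fun i => hat φ (w' i))
          ≤ ∑ φ : Fin N → Vec m, (1 : ℝ) := by
            refine Finset.sum_le_sum fun φ _ => ?_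
            have h1 := abs_cen_le M A (fun i => hat φ (w i))
            have h2 := abs_cen_le M A (fun i => hat φ (w' i))
            calc F (fun i => hat φ (w i)) * F (fun i => hat φ (w' i))
                ≤ |F (fun i => hat φ (w i)) * F (fun i => hat φ (w' i))| := le_abs_self _
              _ = |F (fun i => hat φ (w i))| * |F (fun i => hat φ (w' i))| := abs_mul _ _
              _ ≤ 1 * 1 := mul_le_mul h1 h2 (abs_nonneg _) zero_le_one
              _ = 1 := one_mul 1
        _ = Fintype.card (Fin N → Vec m) := by simp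
  have e3 : ∑ w : Fin (M.1 + 1) → Vec N, ∑ w' : Fin (M.1 + 1) → Vec N,
      (if LinearIndependent (ZMod 2) (Sum.elim w w') then 0 else
        (Fintype.card (Fin N → Vec m) : ℝ)) =
      (univ.filter (fun g : Fin (M.1 + 1) ⊕ Fin (M.1 + 1) → Vec N =>
        ¬ LinearIndependent (ZMod 2) g)).card * (Fintype.card (Fin N → Vec m) : ℝ) := by
    rw [← Fintype.sum_prod_type', ← Equiv.sum_comp
      (Equiv.sumArrowEquivProdArrow (Fin (M.1 + 1)) (Fin (M.1 + 1)) (Vec N))]
    rw [← nsmul_eq_mul, ← Finset.sum_const, Finset.sum_filter]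
    refine Finset.sum_congr rfl fun g _ => ?_
    have : Sum.elim ((Equiv.sumArrowEquivProdArrow (Fin (M.1 + 1)) (Fin (M.1 + 1)) (Vec N)) g).1
        ((Equiv.sumArrowEquivProdArrow (Fin (M.1 + 1)) (Fin (M.1 + 1)) (Vec N)) g).2 = g := by
      funext i
      cases i <;> rfl
    rw [this]
    by_cases hg : LinearIndependent (ZMod 2) g <;> simp [hg]
  have e4 := card_dep (ι := Fin (M.1 + 1) ⊕ Fin (M.1 + 1)) N
  have e5 : ((univ.filter (fun g : Fin (M.1 + 1) ⊕ Fin (M.1 + 1) → Vec N =>
        ¬ LinearIndependent (ZMod 2) g)).card : ℝ) ≤ 4 ^ (M.1 + 1) / 2 ^ N * K ^ 2 := by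
    have h1 : (Fintype.card (Fin (M.1 + 1) ⊕ Fin (M.1 + 1) → Vec N) : ℝ) = K ^ 2 := by
      rw [hK]
      have : Fintype.card (Fin (M.1 + 1) ⊕ Fin (M.1 + 1) → Vec N) =
          Fintype.card (Fin (M.1 + 1) → Vec N) ^ 2 := by
        rw [Fintype.card_congr (Equiv.sumArrowEquivProdArrow (Fin (M.1 + 1)) (Fin (M.1 + 1))
          (Vec N)), Fintype.card_prod, sq]
      rw [this]; push_cast; ring
    have h2 : ((univ.filter (fun g : Fin (M.1 + 1) ⊕ Fin (M.1 + 1) → Vec N =>
        ¬ LinearIndependent (ZMod 2) g)).card : ℝ) * 2 ^ N ≤ 4 ^ (M.1 + 1) * K ^ 2 := by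
      rw [← h1]
      have h3 : Fintype.card (Fin (M.1 + 1) ⊕ Fin (M.1 + 1)) = 2 * (M.1 + 1) := by
        simp [two_mul]
      rw [h3] at e4
      have h4 : (4 : ℝ) ^ (M.1 + 1) = 2 ^ (2 * (M.1 + 1)) := by
        rw [pow_mul]; norm_num
      rw [h4]
      exact_mod_cast e4
    rw [div_mul_eq_mul_div, le_div_iff₀ (by positivity)]
    exact h2
  rw [div_le_iff₀ (by positivity)]
  calc _ ≤ ∑ w : Fin (M.1 + 1) → Vec N, ∑ w' : Fin (M.1 + 1) → Vec N,
        (if LinearIndependent (ZMod 2) (Sum.elim w w') then 0 else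
        (Fintype.card (Fin N → Vec m) : ℝ)) := Finset.sum_le_sum fun w _ => e2 w
    _ = _ := e3
    _ ≤ 4 ^ (M.1 + 1) / 2 ^ N * K ^ 2 * (Fintype.card (Fin N → Vec m) : ℝ) :=
        mul_le_mul_of_nonneg_right e5 (by positivity)
    _ = _ := by ring

/-- **Sampling lemma.** -/
theorem sampling {m : ℕ} (N k r : ℕ) (M : Fin r → FinLModel) (hM : ∀ i, (M i).1 + 1 ≤ k)
    (A : Set (Vec m)) : ∃ B : Set (Vec N),
      ∑ i, (dens (M i) B - dens (M i) A) ^ 2 ≤ r * (4 ^ k / 2 ^ N) := by
  classical
  have h : ∑ φ : Fin N → Vec m, ∑ i, (dens (M i) (pull A φ) - dens (M i) A) ^ 2 ≤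
      ∑ φ : Fin N → Vec m, (r * (4 ^ k / 2 ^ N) : ℝ) := by
    rw [Finset.sum_comm]
    calc ∑ i, ∑ φ : Fin N → Vec m, (dens (M i) (pull A φ) - dens (M i) A) ^ 2
        ≤ ∑ i : Fin r, (Fintype.card (Fin N → Vec m) * (4 ^ k / 2 ^ N) : ℝ) := by
          refine Finset.sum_le_sum fun i _ => (second_moment N (M i) A).trans ?_
          gcongr
          · norm_num
          · exact hM i
      _ = ∑ φ : Fin N → Vec m, (r * (4 ^ k / 2 ^ N) : ℝ) := by
          simp only [Finset.sum_const, Finset.card_univ, nsmul_eq_mul, Fintype.card_fin]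
          ring
  obtain ⟨φ, -, hφ⟩ := Finset.exists_le_of_sum_le (s := univ) ⟨fun _ => 0, Finset.mem_univ _⟩ h
  exact ⟨pull A φ, hφ⟩

end Pool.Agent.W220.Lin
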